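import Pool.Agent.FH.Defs

set_option autoImplicit false

namespace Pool.Agent.FH

theorem abs_of_sylow {G : Type*} [Group G] [Finite G]
    (h : ∀ p : ℕ, p.Prime → ∀ P : Sylow p G, ∀ x ∈ P, ∀ y ∈ P, x * y = y * x) :
    AbS G := by
  intro p hp S hS x hx y hy
  have := Fact.mk hp
  obtain ⟨P, hP⟩ := hS.exists_le_sylow
  exact h p hp P x (hP hx) y (hP hy)

theorem abs_surj {G G' : Type*} [Group G] [Group G'] [Finite G] (h : AbS G) (f : G →* G')
    (hf : Function.Surjective f) : AbS G' := by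
  intro p hp S hS x hx y hy
  have := Fact.mk hp
  have hfin : Finite G' := Finite.of_surjective f hf
  obtain ⟨P', hP'⟩ := hS.exists_le_sylow
  obtain ⟨P, rfl⟩ := Sylow.mapSurjective_surjective hf p P'
  have hx' : x ∈ (P : Subgroup G).map f := hP' hx
  have hy' : y ∈ (P : Subgroup G).map f := hP' hy
  obtain ⟨x0, hx0, rfl⟩ := hx'
  obtain ⟨y0, hy0, rfl⟩ := hy'
  rw [← map_mul, ← map_mul, h p hp P P.isPGroup' x0 hx0 y0 hy0]

theorem ABS_iter_eq {G : Type*} [Group G] (H : Subgroup G) (c : ℕ) :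
    iter H c = H.lowerCentralSeries c := by
  induction c with
  | zero => rfl
  | succ c ih =>
    rw [Subgroup.lowerCentralSeries_succ, ← ih]
    unfold iter
    rw [Function.iterate_succ_apply']

theorem comm_of_iter_bot {G : Type*} [Group G] [Finite G] (h : AbS G) (H : Subgroup G)
    (c : ℕ) (hc : iter H c = ⊥) : ∀ x ∈ H, ∀ y ∈ H, x * y = y * x := by
  have hnil : Group.IsNilpotent H := by
    rw [Subgroup.isNilpotent_iff_lowerCentralSeries]
    exact ⟨c, by rw [← ABS_iter_eq, hc]⟩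
  obtain ⟨e⟩ := (Group.isNilpotent_of_finite_tfae (G := H)).out 0 4 rfl rfl |>.mp hnil
  have hcomm : ∀ a b : H, a * b = b * a := by
    intro a b
    obtain ⟨a', rfl⟩ := e.surjective a
    obtain ⟨b', rfl⟩ := e.surjective b
    rw [← map_mul, ← map_mul]
    congr 1
    ext p P
    have hp : Nat.Prime (p : ℕ) := Nat.prime_of_mem_primeFactors p.2
    have hS : IsPGroup (p : ℕ) ((P : Subgroup H).map H.subtype) :=
      P.isPGroup'.map H.subtype
    have h1 := h (p : ℕ) hp _ hS ((a' p P : H) : G) ⟨_, (a' p P).2, rfl⟩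
      ((b' p P : H) : G) ⟨_, (b' p P).2, rfl⟩
    exact h1
  intro x hx y hy
  have h1 := congrArg Subtype.val (hcomm ⟨x, hx⟩ ⟨y, hy⟩)
  exact h1

end Pool.Agent.FH
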