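import Pool.Agent.FH.Defs

set_option autoImplicit false

namespace Pool.Agent.FH

theorem exists_height {A : Type*} [Group A] [Finite A] (n : ℕ)
    (hn : ∀ s : LTSeries (Subgroup A), s.length ≤ n) :
    ∃ f : Subgroup A → ℕ, StrictMono f ∧ f ⊤ ≤ n := by
  classical
  let S : Subgroup A → Set ℕ := fun B => {m | ∃ s : LTSeries (Subgroup A), s.last ≤ B ∧
    s.length = m}
  have hSne : ∀ B, (S B).Nonempty := by
    intro B
    exact ⟨0, RelSeries.singleton _ B, le_rfl, rfl⟩
  have hSb : ∀ B, BddAbove (S B) := by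
    intro B
    refine ⟨n, ?_⟩
    rintro m ⟨s, _, rfl⟩
    exact hn s
  refine ⟨fun B => sSup (S B), ?_, ?_⟩
  · intro B B' hB
    obtain ⟨s, hs, hs1⟩ := Nat.sSup_mem (hSne B) (hSb B)
    have h1 : s.last < B' := lt_of_le_of_lt hs hB
    have h2 : s.length + 1 ∈ S B' := by
      refine ⟨s.snoc B' h1, ?_, ?_⟩
      · simp
      · rfl
    have h3 := le_csSup (hSb B') h2
    change sSup (S B) < sSup (S B')
    rw [← hs1]
    omega
  · obtain ⟨s, _, hs1⟩ := Nat.sSup_mem (hSne ⊤) (hSb ⊤)
    change sSup (S ⊤) ≤ n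
    rw [← hs1]
    exact hn s

theorem CHN_lt {A : Type*} [Group A] [Finite A] {B B' : Subgroup A} (h : B < B') :
    (Nat.card B).primeFactorsList.length < (Nat.card B').primeFactorsList.length := by
  have h1 : Nat.card B ∣ Nat.card B' := Subgroup.card_dvd_of_le h.le
  have h2 : Nat.card B ≠ Nat.card B' := by
    intro h3
    exact h.ne (Subgroup.eq_of_le_of_card_ge h.le h3.ge)
  obtain ⟨m, hm⟩ := h1
  have hB : Nat.card B ≠ 0 := Nat.card_pos.ne'
  have hB' : Nat.card B' ≠ 0 := Nat.card_pos.ne'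
  have hm0 : m ≠ 0 := by
    rintro rfl
    rw [mul_zero] at hm
    exact hB' hm
  have hm1 : m ≠ 1 := by
    rintro rfl
    rw [mul_one] at hm
    exact h2 hm.symm
  rw [hm]
  have h4 := (Nat.perm_primeFactorsList_mul hB hm0).length_eq
  rw [h4, List.length_append]
  have h5 : 0 < m.primeFactorsList.length := by
    rw [List.length_pos_iff]
    intro h6
    rcases (Nat.primeFactorsList_eq_nil m).1 h6 with h7 | h7
    · exact hm0 h7
    · exact hm1 h7
  omega

theorem length_le_Omega {A : Type*} [Group A] [Finite A] (s : LTSeries (Subgroup A)) :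
    s.length ≤ (Nat.card A).primeFactorsList.length := by
  have h1 : ∀ i : ℕ, ∀ hi : i < s.length + 1,
      i ≤ (Nat.card (s ⟨i, hi⟩ : Subgroup A)).primeFactorsList.length := by
    intro i
    induction i with
    | zero => intro _; exact Nat.zero_le _
    | succ i ih =>
      intro hi
      have h2 := ih (by omega)
      have h3 : s ⟨i, by omega⟩ < s ⟨i + 1, hi⟩ := s.strictMono (by
        rw [Fin.mk_lt_mk]
        omega)
      have h4 := CHN_lt h3
      omega
  have h2 := h1 s.length (Nat.lt_succ_self _)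
  refine h2.trans ?_
  have h3 : (s ⟨s.length, Nat.lt_succ_self _⟩ : Subgroup A) ≤ ⊤ := le_top
  rcases h3.lt_or_eq with h4 | h4
  · have h5 := CHN_lt h4
    rw [Subgroup.card_top] at h5
    exact h5.le
  · rw [h4, Subgroup.card_top]

end Pool.Agent.FH
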