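import Pool.Agent.FH.Defs

set_option autoImplicit false

namespace Pool.Agent.FH

open scoped commutatorElement IsMulCommutative

theorem h1 {A D : Type*} [Group A] [Finite A] [CommGroup D] [Finite D] (β : A →* MulAut D)
    (hcop : Nat.Coprime (Nat.card D) (Nat.card A)) (c : A → D)
    (hc : ∀ a b, c (a * b) = c a * β a (c b)) : ∃ d : D, ∀ a, c a = d * (β a d)⁻¹ := by
  classical
  have := Fintype.ofFinite A
  let d0 : D := ∏ b : A, c b
  have h2 : ∀ a, d0 = c a ^ Nat.card A * β a d0 := by
    intro a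
    calc d0 = ∏ b : A, c (a * b) :=
          (Fintype.prod_equiv (Equiv.mulLeft a) _ _ (fun b => rfl)).symm
      _ = ∏ b : A, (c a * β a (c b)) := Finset.prod_congr rfl (fun b _ => hc a b)
      _ = c a ^ Nat.card A * β a d0 := by
          rw [Finset.prod_mul_distrib, Finset.prod_const, Finset.card_univ,
            Nat.card_eq_fintype_card, ← map_prod]
  obtain ⟨m, hm⟩ : ∃ m : ℕ, ∀ x : D, x ^ (Nat.card A * m) = x := by
    have h3 : Nat.Coprime (Nat.card A) (Nat.card D) := hcop.symm
    by_cases h4 : Nat.card D = 1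
    · refine ⟨0, fun x => ?_⟩
      have h5 : Subsingleton D := (Nat.card_eq_one_iff_unique.1 h4).1
      exact Subsingleton.elim _ _
    · have h5 : 1 < Nat.card D := lt_of_le_of_ne (Nat.one_le_iff_ne_zero.2 Nat.card_pos.ne')
        (Ne.symm h4)
      obtain ⟨m, _, hm⟩ := Nat.exists_mul_mod_eq_one_of_coprime h3 h5
      refine ⟨m, fun x => ?_⟩
      rw [← pow_mod_natCard, hm, pow_one]
  refine ⟨d0 ^ m, fun a => ?_⟩
  have h3 := h2 a
  have h4 : c a ^ Nat.card A = d0 * (β a d0)⁻¹ := by
    rw [eq_mul_inv_iff_mul_eq]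
    exact h3.symm
  calc c a = (c a ^ Nat.card A) ^ m := by rw [← pow_mul, hm]
    _ = d0 ^ m * (β a (d0 ^ m))⁻¹ := by rw [h4, mul_pow, inv_pow, map_pow]

theorem exists_quot_action {A G : Type*} [Group A] [Group G] (φ : A →* MulAut G)
    (L : Subgroup G) [L.Normal] (hL : Inv φ L) :
    ∃ φ' : A →* MulAut (G ⧸ L), ∀ a g,
      φ' a (QuotientGroup.mk g) = QuotientGroup.mk (φ a g) := by
  have h1 : ∀ a, L ≤ L.comap (φ a).toMonoidHom := fun a x hx => hL a x hx
  refine ⟨{ toFun := fun a =>
              { toFun := QuotientGroup.map L L (φ a).toMonoidHom (h1 a)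
                invFun := QuotientGroup.map L L (φ a⁻¹).toMonoidHom (h1 a⁻¹)
                left_inv := ?_
                right_inv := ?_
                map_mul' := map_mul _ }
            map_one' := ?_
            map_mul' := ?_ }, ?_⟩
  · intro x
    obtain ⟨g, rfl⟩ := QuotientGroup.mk_surjective x
    simp
  · intro x
    obtain ⟨g, rfl⟩ := QuotientGroup.mk_surjective x
    simp
  · ext x
    obtain ⟨g, rfl⟩ := QuotientGroup.mk_surjective x
    simp
  · intro a b
    ext x
    obtain ⟨g, rfl⟩ := QuotientGroup.mk_surjective x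
    simp
  · intro a g
    rfl

/-- FPF on the quotient by an abelian invariant normal subgroup. -/
theorem COH_fpf_abelian {A G : Type*} [Group A] [Group G] [Finite A] [Finite G]
    (φ : A →* MulAut G) (hcop : Nat.Coprime (Nat.card G) (Nat.card A)) (h : FPF φ)
    (D : Subgroup G) [D.Normal] (hD : Inv φ D) (hDc : ∀ x ∈ D, ∀ y ∈ D, x * y = y * x)
    (φ' : A →* MulAut (G ⧸ D))
    (he : ∀ a g, φ' a (QuotientGroup.mk g) = QuotientGroup.mk (φ a g)) : FPF φ' := by
  intro x hx
  obtain ⟨g, rfl⟩ := QuotientGroup.mk_surjective x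
  have hDc' : IsMulCommutative D :=
    isMulCommutative_iff.2 (fun x y => Subtype.ext (hDc x x.2 y y.2))
  have hc : ∀ a, g⁻¹ * φ a g ∈ D := by
    intro a
    have h1 := hx a
    rw [he] at h1
    exact QuotientGroup.eq.1 h1.symm
  let β : A →* MulAut D :=
    { toFun := fun b =>
        { toFun := fun x => ⟨φ b x, hD b x x.2⟩
          invFun := fun x => ⟨φ b⁻¹ x, hD b⁻¹ x x.2⟩
          left_inv := by
            intro x
            apply Subtype.ext
            simp
          right_inv := by
            intro x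
            apply Subtype.ext
            simp
          map_mul' := by
            intro x y
            apply Subtype.ext
            simp }
      map_one' := by
        ext x
        simp
      map_mul' := by
        intro a b
        ext x
        simp }
  have hβ : ∀ b (x : D), ((β b x : D) : G) = φ b x := fun _ _ => rfl
  have hcopD : Nat.Coprime (Nat.card D) (Nat.card A) :=
    Nat.Coprime.coprime_dvd_left (Subgroup.card_subgroup_dvd_card D) hcop
  obtain ⟨d, hd⟩ := h1 β hcopD (fun a => ⟨g⁻¹ * φ a g, hc a⟩) (by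
    intro a b
    apply Subtype.ext
    change g⁻¹ * φ (a * b) g = g⁻¹ * φ a g * φ a (g⁻¹ * φ b g)
    rw [map_mul, map_mul, map_inv, MulAut.mul_apply]
    group)
  have h2 : g * d = 1 := by
    apply h
    intro a
    have h3 := congrArg Subtype.val (hd a)
    have h4 : g⁻¹ * φ a g = d * (φ a d)⁻¹ := h3
    rw [map_mul]
    have h5 : φ a g = g * (d * (φ a d)⁻¹) := by
      rw [← h4]
      group
    rw [h5]
    group
  rw [QuotientGroup.eq_one_iff]
  have h3 : g = (d : G)⁻¹ := eq_inv_of_mul_eq_one_left h2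
  rw [h3]
  exact D.inv_mem d.2

theorem COH_comm_inv {A G : Type*} [Group A] [Group G] (φ : A →* MulAut G)
    (X Y : Subgroup G) (hX : Inv φ X) (hY : Inv φ Y) : Inv φ ⁅X, Y⁆ := by
  intro a y hy
  have h1 : ⁅X, Y⁆ ≤ (⁅X, Y⁆).comap (φ a).toMonoidHom := by
    rw [Subgroup.commutator_le]
    intro e he x hx
    rw [Subgroup.mem_comap]
    have h2 : (φ a).toMonoidHom ⁅e, x⁆ = ⁅φ a e, φ a x⁆ := by
      simp [commutatorElement_def]
    rw [h2]
    exact Subgroup.commutator_mem_commutator (hX a e he) (hY a x hx)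
  exact h1 hy

/-- A nontrivial abelian normal invariant subgroup inside `L`. -/
theorem COH_exists_D {A G : Type*} [Group A] [Group G] (φ : A →* MulAut G)
    (hsol : Group.IsSolvable G) (L : Subgroup G) (hLn : L.Normal) (hLi : Inv φ L)
    (hL : L ≠ ⊥) : ∃ D : Subgroup G, D ≤ L ∧ D.Normal ∧ Inv φ D ∧ D ≠ ⊥ ∧
      ∀ x ∈ D, ∀ y ∈ D, x * y = y * x := by
  classical
  obtain ⟨k, hk⟩ := (Group.isSolvable_def G).1 hsol
  let E : ℕ → Subgroup G := fun j => (fun X : Subgroup G => ⁅X, X⁆)^[j] L
  have hE0 : E 0 = L := rfl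
  have hEs : ∀ j, E (j + 1) = ⁅E j, E j⁆ := fun j => Function.iterate_succ_apply' _ _ _
  have hEn : ∀ j, (E j).Normal ∧ Inv φ (E j) ∧ E j ≤ L ∧ E j ≤ derivedSeries G j := by
    intro j
    induction j with
    | zero => exact ⟨hLn, hLi, le_rfl, by simp⟩
    | succ j ih =>
      obtain ⟨h1, h2, h3, h4⟩ := ih
      rw [hEs, derivedSeries_succ]
      exact ⟨Subgroup.commutator_normal _ _, COH_comm_inv φ _ _ h2 h2,
        (Subgroup.commutator_le_self _).trans h3, Subgroup.commutator_mono h4 h4⟩
  have hex : ∃ j, E j = ⊥ := ⟨k, by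
    rw [eq_bot_iff, ← hk]
    exact (hEn k).2.2.2⟩
  have h0 : Nat.find hex ≠ 0 := by
    intro h0
    apply hL
    have h1 := Nat.find_spec hex
    rw [h0, hE0] at h1
    exact h1
  obtain ⟨j, hj⟩ := Nat.exists_eq_succ_of_ne_zero h0
  have h1 : E j ≠ ⊥ := Nat.find_min hex (by omega)
  have h2 : E (j + 1) = ⊥ := by
    have h3 := Nat.find_spec hex
    rw [hj] at h3
    exact h3
  refine ⟨E j, (hEn j).2.2.1, (hEn j).1, (hEn j).2.1, h1, ?_⟩
  intro x hx y hy
  have h3 := Subgroup.commutator_mem_commutator hx hy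
  rw [← hEs, h2, Subgroup.mem_bot, commutatorElement_eq_one_iff_mul_comm] at h3
  exact h3

theorem COH_aux {A G' : Type} [Group A] [Group G'] [Finite A] (φ' : A →* MulAut G') :
    ∀ n : ℕ, ∀ (G : Type) [Group G] [Finite G] (φ : A →* MulAut G),
      Group.IsSolvable G → Nat.Coprime (Nat.card G) (Nat.card A) → FPF φ →
      ∀ f : G →* G', Function.Surjective f → (∀ a g, f (φ a g) = φ' a (f g)) →
      Nat.card G = n → FPF φ' := by
  intro n
  induction n using Nat.strong_induction_on with
  | _ n ih =>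
    intro G _ _ φ hsol hcop h f hf he hn
    by_cases hL : f.ker = ⊥
    · have hinj : Function.Injective f := (MonoidHom.ker_eq_bot_iff f).1 hL
      intro x hx
      obtain ⟨g, rfl⟩ := hf x
      have h1 : g = 1 := by
        apply h
        intro a
        apply hinj
        rw [he, hx]
      rw [h1, map_one]
    · have hLi : Inv φ f.ker := by
        intro a x hx
        rw [MonoidHom.mem_ker] at hx ⊢
        rw [he, hx, map_one]
      obtain ⟨D, hDL, hDn, hDi, hD, hDc⟩ := COH_exists_D φ hsol f.ker inferInstance hLi hL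
      obtain ⟨φ1, hφ1⟩ := exists_quot_action φ D hDi
      have hfix1 : FPF φ1 := COH_fpf_abelian φ hcop h D hDi hDc φ1 hφ1
      have hsol1 : Group.IsSolvable (G ⧸ D) :=
        Group.isSolvable_of_surjective (QuotientGroup.mk'_surjective D)
      have hcop1 : Nat.Coprime (Nat.card (G ⧸ D)) (Nat.card A) :=
        Nat.Coprime.coprime_dvd_left (Subgroup.card_quotient_dvd_card _) hcop
      let f1 : G ⧸ D →* G' := QuotientGroup.lift D f (fun x hx => hDL hx)
      have hf1 : Function.Surjective f1 := by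
        intro y
        obtain ⟨g, rfl⟩ := hf y
        exact ⟨QuotientGroup.mk g, rfl⟩
      have he1 : ∀ a g, f1 (φ1 a g) = φ' a (f1 g) := by
        intro a g
        obtain ⟨y, rfl⟩ := QuotientGroup.mk_surjective g
        rw [hφ1]
        exact he a y
      have hlt : Nat.card (G ⧸ D) < n := by
        rw [← hn, Subgroup.card_eq_card_quotient_mul_card_subgroup D]
        have h1 : 1 < Nat.card D := by
          have : Nontrivial D := (Subgroup.nontrivial_iff_ne_bot _).2 hD
          exact Finite.one_lt_card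
        have h2 : 0 < Nat.card (G ⧸ D) := Nat.card_pos
        nlinarith
      exact ih (Nat.card (G ⧸ D)) hlt (G ⧸ D) φ1 hsol1 hcop1 hfix1 f1 hf1 he1 rfl

theorem fpf_of_surj {A G G' : Type} [Group A] [Group G] [Group G'] [Finite A] [Finite G]
    (φ : A →* MulAut G) (φ' : A →* MulAut G') (hsol : Group.IsSolvable G)
    (hcop : Nat.Coprime (Nat.card G) (Nat.card A)) (h : FPF φ) (f : G →* G')
    (hf : Function.Surjective f) (he : ∀ a g, f (φ a g) = φ' a (f g)) : FPF φ' :=
  COH_aux φ' (Nat.card G) G φ hsol hcop h f hf he rfl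

end Pool.Agent.FH
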