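import Mathlib

set_option autoImplicit false

/-!
Definitions for project FH (problem MP_0ba5e1_al): Fitting height of groups with a
fixed point free coprime group of automorphisms, groups with abelian Sylow subgroups.
-/

namespace Pool.Agent.FH

/-- Iterated commutator: `iter H c = [...[[H,H],H],...,H]` with `c` commutators. -/
def iter {G : Type*} [Group G] (H : Subgroup G) (c : ℕ) : Subgroup G :=
  (fun L : Subgroup G => ⁅L, H⁆)^[c] H

/-- The nilpotent residual of a subgroup (for finite groups). -/
def ires {G : Type*} [Group G] (H : Subgroup G) : Subgroup G := ⨅ c, iter H c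

/-- The descending series of iterated nilpotent residuals. -/
def R (G : Type*) [Group G] : ℕ → Subgroup G
  | 0 => ⊤
  | t + 1 => ires (R G t)

/-- Every `p`-subgroup is commutative (all primes `p`). -/
def AbS (G : Type*) [Group G] : Prop :=
  ∀ (p : ℕ), p.Prime → ∀ S : Subgroup G, IsPGroup p S → ∀ x ∈ S, ∀ y ∈ S, x * y = y * x

/-- The action `φ` of `A` on `G` has no fixed point except `1`. -/
def FPF {A G : Type*} [Group A] [Group G] (φ : A →* MulAut G) : Prop :=
  ∀ g : G, (∀ a : A, φ a g = g) → g = 1

/-- `H` is invariant under `A`. -/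
def Inv {A G : Type*} [Group A] [Group G] (φ : A →* MulAut G) (H : Subgroup G) : Prop :=
  ∀ a : A, ∀ x ∈ H, φ a x ∈ H

/-- The stabilizer of `v` in `A`. -/
def stab {A V : Type*} [Group A] [Group V] (α : A →* MulAut V) (v : V) : Subgroup A where
  carrier := {a | α a v = v}
  one_mem' := by simp
  mul_mem' := by
    intro a b ha hb
    simp only [Set.mem_setOf_eq, map_mul, MulAut.mul_apply] at *
    rw [hb, ha]
  inv_mem' := by
    intro a ha
    simp only [Set.mem_setOf_eq, map_inv] at *
    have h : (α a)⁻¹ (α a v) = v := by simp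
    rw [ha] at h
    exact h

theorem mem_stab {A V : Type*} [Group A] [Group V] (α : A →* MulAut V) (v : V) (a : A) :
    a ∈ stab α v ↔ α a v = v := Iff.rfl

/-- Normal `A`-invariant subgroups of `G` act on `V` trivially or without fixed points. -/
def Prim {A G V : Type*} [Group A] [Group G] [Group V] (φ : A →* MulAut G)
    (ρ : G →* MulAut V) : Prop :=
  ∀ X : Subgroup G, X.Normal → Inv φ X →
    (∀ x ∈ X, ∀ v, ρ x v = v) ∨ (∀ v, (∀ x ∈ X, ρ x v = v) → v = 1)

end Pool.Agent.FH
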