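import Mathlib
import Pool.Agent.FH.Defs

set_option autoImplicit false

namespace Pool.Agent.FH

open Finset

/-- enough roots of unity for every finite commutative group of good order -/
theorem dual_enough {D K : Type*} [CommGroup D] [Finite D] [Field K] [IsAlgClosed K]
    (hK : ((Nat.card D : ℕ) : K) ≠ 0) : HasEnoughRootsOfUnity K (Monoid.exponent D) := by
  have h1 : ((Monoid.exponent D : ℕ) : K) ≠ 0 := by
    intro h
    obtain ⟨k, hk⟩ := Group.exponent_dvd_nat_card (G := D)
    apply hK
    rw [hk, Nat.cast_mul, h, zero_mul]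
  have : NeZero ((Monoid.exponent D : ℕ) : K) := ⟨h1⟩
  infer_instance

theorem dual_card {D K : Type*} [CommGroup D] [Finite D] [Field K] [IsAlgClosed K]
    (hK : ((Nat.card D : ℕ) : K) ≠ 0) : Nat.card (D →* Kˣ) = Nat.card D := by
  have := dual_enough hK
  exact CommGroup.card_monoidHom_of_hasEnoughRootsOfUnity D K

theorem dual_finite {D K : Type*} [CommGroup D] [Finite D] [Field K] [IsAlgClosed K]
    (hK : ((Nat.card D : ℕ) : K) ≠ 0) : Finite (D →* Kˣ) := by
  apply Nat.finite_of_card_ne_zero
  rw [dual_card hK]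
  exact Nat.card_pos.ne'

theorem dual_separate {D K : Type*} [CommGroup D] [Finite D] [Field K] [IsAlgClosed K]
    (hK : ((Nat.card D : ℕ) : K) ≠ 0) {x : D} (hx : ∀ l : D →* Kˣ, l x = 1) : x = 1 := by
  have := dual_enough hK
  by_contra h
  obtain ⟨l, hl⟩ := CommGroup.exists_apply_ne_one_of_hasEnoughRootsOfUnity D K h
  exact hl (hx l)

theorem dual_sub_ne {D K : Type*} [CommGroup D] [Finite D] [Field K] [IsAlgClosed K]
    (hK : ((Nat.card D : ℕ) : K) ≠ 0) (H : Subgroup D) : ((Nat.card H : ℕ) : K) ≠ 0 := by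
  intro h
  obtain ⟨k, hk⟩ := Subgroup.card_subgroup_dvd_card H
  apply hK
  rw [hk, Nat.cast_mul, h, zero_mul]

/-- elements killed by two coprime powers -/
theorem dual_pow_eq_one {G : Type*} [Group G] {x : G} {m n : ℕ} (hmn : Nat.Coprime m n)
    (hm : x ^ m = 1) (hn : x ^ n = 1) : x = 1 := by
  rw [← orderOf_eq_one_iff]
  exact Nat.eq_one_of_dvd_coprimes hmn (orderOf_dvd_of_pow_eq_one hm) (orderOf_dvd_of_pow_eq_one hn)

/-- stabilizer of a character -/
def dual_stabW {A D M : Type*} [Group A] [Group D] [CommGroup M] (β : A →* MulAut D)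
    (l : D →* M) : Subgroup A where
  carrier := {a | ∀ x, l (β a x) = l x}
  one_mem' := by intro x; simp
  mul_mem' := by
    intro a b ha hb x
    simp only [Set.mem_ofPred_eq] at ha hb
    rw [map_mul, MulAut.mul_apply, ha, hb]
  inv_mem' := by
    intro a ha x
    simp only [Set.mem_ofPred_eq] at ha
    have h := ha (β a⁻¹ x)
    rw [← MulAut.mul_apply, ← map_mul] at h
    simp only [mul_inv_cancel, map_one, MulAut.one_apply] at h
    exact h.symm

theorem dual_mem_stabW {A D M : Type*} [Group A] [Group D] [CommGroup M] (β : A →* MulAut D)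
    (l : D →* M) (a : A) : a ∈ dual_stabW β l ↔ ∀ x, l (β a x) = l x := Iff.rfl

/-- fixed points of a subgroup -/
def dual_FD {A D : Type*} [Group A] [Group D] (β : A →* MulAut D) (S : Subgroup A) :
    Subgroup D where
  carrier := {x | ∀ a ∈ S, β a x = x}
  one_mem' := by intro a _; simp
  mul_mem' := by
    intro x y hx hy a ha
    rw [map_mul, hx a ha, hy a ha]
  inv_mem' := by
    intro x hx a ha
    rw [map_inv, hx a ha]

/-- fixed characters of a subgroup -/
def dual_FW {A D M : Type*} [Group A] [Group D] [CommGroup M] (β : A →* MulAut D)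
    (S : Subgroup A) : Subgroup (D →* M) where
  carrier := {l | ∀ a ∈ S, ∀ x, l (β a x) = l x}
  one_mem' := by intro a _ x; simp
  mul_mem' := by
    intro l m hl hm a ha x
    rw [MonoidHom.mul_apply, MonoidHom.mul_apply, hl a ha x, hm a ha x]
  inv_mem' := by
    intro l hl a ha x
    rw [MonoidHom.inv_apply, MonoidHom.inv_apply, hl a ha x]

theorem dual_cop {A D : Type*} [Group A] [Finite A] [CommGroup D]
    (hcop : Nat.Coprime (Nat.card D) (Nat.card A)) (S : Subgroup A) :
    Nat.Coprime (Nat.card S) (Nat.card D) := by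
  exact Nat.Coprime.coprime_dvd_left (Subgroup.card_subgroup_dvd_card S) hcop.symm

theorem dual_card_le {A D K : Type*} [Group A] [Finite A] [CommGroup D] [Finite D] [Field K]
    [IsAlgClosed K] (hK : ((Nat.card D : ℕ) : K) ≠ 0) (β : A →* MulAut D)
    (hcop : Nat.Coprime (Nat.card D) (Nat.card A)) (S : Subgroup A) :
    Nat.card (dual_FW (M := Kˣ) β S) ≤ Nat.card (dual_FD β S) := by
  classical
  have := Fintype.ofFinite S
  have hK' := dual_sub_ne hK (dual_FD β S)
  rw [← dual_card hK']
  have := dual_finite hK'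
  let ι : dual_FW (M := Kˣ) β S → (dual_FD β S →* Kˣ) := fun l => l.1.comp (dual_FD β S).subtype
  refine Nat.card_le_card_of_injective ι ?_
  intro l m hlm
  have hlm' : ∀ x ∈ dual_FD β S, l.1 x = m.1 x := by
    intro x hx
    exact DFunLike.congr_fun hlm ⟨x, hx⟩
  apply Subtype.ext
  ext x
  congr 1
  have hy : (∏ a : S, β a x) ∈ dual_FD β S := by
    intro b hb
    rw [map_prod]
    refine Fintype.prod_equiv (Equiv.mulLeft (⟨b, hb⟩ : S)) _ _ ?_
    intro a
    simp [MulAut.mul_apply]
  have h1 := hlm' _ hy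
  rw [map_prod, map_prod] at h1
  have h2 : ∀ a : S, l.1 (β a x) = l.1 x := fun a => l.2 a a.2 x
  have h3 : ∀ a : S, m.1 (β a x) = m.1 x := fun a => m.2 a a.2 x
  simp only [h2, h3, prod_const, card_univ] at h1
  have h4 : (l.1 x * (m.1 x)⁻¹) ^ (Nat.card S) = 1 := by
    rw [mul_pow, inv_pow, Nat.card_eq_fintype_card, h1, mul_inv_cancel]
  have h5 : (l.1 x * (m.1 x)⁻¹) ^ (Nat.card D) = 1 := by
    rw [mul_pow, inv_pow, ← map_pow, ← map_pow, pow_card_eq_one', map_one, map_one, inv_one,
      mul_one]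
  exact mul_inv_eq_one.1 (dual_pow_eq_one (dual_cop hcop S) h4 h5)

theorem dual_card_ge {A D K : Type*} [Group A] [Finite A] [CommGroup D] [Finite D] [Field K]
    [IsAlgClosed K] (hK : ((Nat.card D : ℕ) : K) ≠ 0) (β : A →* MulAut D)
    (hcop : Nat.Coprime (Nat.card D) (Nat.card A)) (S : Subgroup A) :
    Nat.card (dual_FD β S) ≤ Nat.card (dual_FW (M := Kˣ) β S) := by
  classical
  have := Fintype.ofFinite S
  have := dual_finite hK
  have hK1 : ((Nat.card (D →* Kˣ) : ℕ) : K) ≠ 0 := by rw [dual_card hK]; exact hK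
  have hK' := dual_sub_ne hK1 (dual_FW (M := Kˣ) β S)
  rw [← dual_card hK']
  have := dual_finite hK'
  let ι : dual_FD β S → (dual_FW (M := Kˣ) β S →* Kˣ) := fun x =>
    { toFun := fun l => l.1 x.1
      map_one' := by simp
      map_mul' := by intro l m; simp }
  refine Nat.card_le_card_of_injective ι ?_
  intro x y hxy
  have hxy' : ∀ l ∈ dual_FW (M := Kˣ) β S, l x.1 = l y.1 := by
    intro l hl
    exact DFunLike.congr_fun hxy ⟨l, hl⟩
  apply Subtype.ext
  have hsep : ∀ l : D →* Kˣ, l (x.1 * y.1⁻¹) = 1 := by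
    intro l
    have hn : (∏ a : S, l.comp (β a).toMonoidHom) ∈ dual_FW (M := Kˣ) β S := by
      intro b hb z
      rw [MonoidHom.finsetProd_apply, MonoidHom.finsetProd_apply]
      refine Fintype.prod_equiv (Equiv.mulRight (⟨b, hb⟩ : S)) _ _ ?_
      intro a
      simp [MulAut.mul_apply]
    have h1 := hxy' _ hn
    rw [MonoidHom.finsetProd_apply, MonoidHom.finsetProd_apply] at h1
    have h2 : ∀ a : S, (l.comp (β a).toMonoidHom) x.1 = l x.1 := fun a => by
      simp [x.2 a.1 a.2]
    have h3 : ∀ a : S, (l.comp (β a).toMonoidHom) y.1 = l y.1 := fun a => by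
      simp [y.2 a.1 a.2]
    simp only [h2, h3, prod_const, card_univ] at h1
    rw [map_mul, map_inv]
    have h4 : (l x.1 * (l y.1)⁻¹) ^ (Nat.card S) = 1 := by
      rw [mul_pow, inv_pow, Nat.card_eq_fintype_card, h1, mul_inv_cancel]
    have h5 : (l x.1 * (l y.1)⁻¹) ^ (Nat.card D) = 1 := by
      rw [mul_pow, inv_pow, ← map_pow, ← map_pow, pow_card_eq_one', pow_card_eq_one', map_one,
        inv_one, mul_one]
    exact dual_pow_eq_one (dual_cop hcop S) h4 h5
  exact mul_inv_eq_one.1 (dual_separate hK hsep)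

/-- sum over fibres -/
theorem dual_fiber {X P : Type*} [Finite X] [Fintype P] [PartialOrder P] [DecidableEq P]
    [DecidableRel (fun a b : P => a ≤ b)] (f : X → P) (s : P) :
    Nat.card {x : X // s ≤ f x} =
      ∑ t ∈ Finset.univ.filter (fun t : P => s ≤ t), Nat.card {x : X // f x = t} := by
  classical
  have := Fintype.ofFinite X
  simp only [Nat.card_eq_fintype_card, Fintype.card_subtype]
  have h := Finset.card_eq_sum_card_fiberwise (s := Finset.univ.filter (fun x : X => s ≤ f x))
    (t := Finset.univ.filter (fun t : P => s ≤ t)) (f := f) (by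
      intro x hx
      simpa using hx)
  rw [h]
  refine Finset.sum_congr rfl fun t ht => ?_
  congr 1
  ext x
  simp only [mem_filter, mem_univ, true_and] at ht ⊢
  constructor
  · rintro ⟨_, h2⟩; exact h2
  · intro h2; exact ⟨h2 ▸ ht, h2⟩

theorem dual_count {X Y P : Type*} [Finite X] [Finite Y] [Finite P] [PartialOrder P] (f : X → P)
    (g : Y → P) (h : ∀ s, Nat.card {x : X // s ≤ f x} = Nat.card {y : Y // s ≤ g y}) (s : P) :
    Nat.card {x : X // f x = s} = Nat.card {y : Y // g y = s} := by
  classical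
  have := Fintype.ofFinite P
  have : WellFoundedGT P := Finite.to_wellFoundedGT
  induction s using WellFoundedGT.induction with
  | ind s ih =>
    have h1 := h s
    rw [dual_fiber f s, dual_fiber g s] at h1
    have hs : s ∈ Finset.univ.filter (fun t : P => s ≤ t) := by simp
    rw [← Finset.add_sum_erase _ _ hs, ← Finset.add_sum_erase _ _ hs] at h1
    have h2 : ∑ t ∈ (Finset.univ.filter (fun t : P => s ≤ t)).erase s,
        Nat.card {x : X // f x = t} = ∑ t ∈ (Finset.univ.filter (fun t : P => s ≤ t)).erase s,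
        Nat.card {y : Y // g y = t} := by
      refine Finset.sum_congr rfl fun t ht => ih t ?_
      simp only [mem_erase, mem_filter, mem_univ, true_and] at ht
      exact lt_of_le_of_ne ht.2 (Ne.symm ht.1)
    omega

/-- Coprime action on a finite commutative group: stabilizers of characters are stabilizers of
elements. -/
theorem stab_dual {A D K : Type*} [Group A] [Finite A] [CommGroup D] [Finite D] [Field K]
    [IsAlgClosed K] (hK : ((Nat.card D : ℕ) : K) ≠ 0) (β : A →* MulAut D)
    (hcop : Nat.Coprime (Nat.card D) (Nat.card A)) (l : D →* Kˣ) :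
    ∃ e : D, ∀ a, (β a e = e ↔ ∀ x, l (β a x) = l x) := by
  classical
  have := dual_finite hK
  have key := dual_count (fun x : D => stab β x) (fun m : D →* Kˣ => dual_stabW β m) (by
    intro S
    have e1 : Nat.card {x : D // S ≤ stab β x} = Nat.card (dual_FD β S) := by
      apply Nat.card_congr
      exact Equiv.subtypeEquivRight fun x => ⟨fun h a ha => h ha, fun h a ha => h a ha⟩
    have e2 : Nat.card {m : D →* Kˣ // S ≤ dual_stabW β m} =
        Nat.card (dual_FW (M := Kˣ) β S) := by
      apply Nat.card_congr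
      exact Equiv.subtypeEquivRight fun x => ⟨fun h a ha => h ha, fun h a ha => h a ha⟩
    rw [e1, e2]
    exact le_antisymm (dual_card_ge hK β hcop S) (dual_card_le hK β hcop S)) (dual_stabW β l)
  have hpos : 0 < Nat.card {m : D →* Kˣ // dual_stabW β m = dual_stabW β l} := by
    have : Nonempty {m : D →* Kˣ // dual_stabW β m = dual_stabW β l} := ⟨⟨l, rfl⟩⟩
    exact Nat.card_pos
  rw [← key] at hpos
  obtain ⟨⟨e, he⟩⟩ := (Nat.card_pos_iff.1 hpos).1
  refine ⟨e, fun a => ?_⟩
  have h1 : a ∈ stab β e ↔ a ∈ dual_stabW β l := by rw [he]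
  exact h1

end Pool.Agent.FH
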