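import Pool.Agent.FH.RES
import Pool.Agent.FH.ABS

set_option autoImplicit false

namespace Pool.Agent.FH

open scoped commutatorElement IsMulCommutative

theorem EXE_key {G : Type*} [Group G] [Finite G] (hab : AbS G) (D N : Subgroup G)
    (hD : D.Normal) (hDc : ∀ x ∈ D, ∀ y ∈ D, x * y = y * x) (hcomm : ⁅D, N⁆ = D)
    (r : ℕ) (hr : r.Prime) (x : G) (hx : x ∈ D) (hxr : x ^ r = 1)
    (hxN : ∀ n ∈ N, n * x = x * n) : x = 1 := by
  classical
  have hrF := Fact.mk hr
  obtain ⟨b, s, hs, hbs⟩ := Nat.exists_eq_pow_mul_and_not_dvd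
    (show Nat.card D ≠ 0 from Nat.card_pos.ne') r hr.ne_one
  have hpowD : ∀ y ∈ D, y ^ (Nat.card D) = 1 := by
    intro y hy
    have h1 : (⟨y, hy⟩ : D) ^ Nat.card D = 1 := pow_card_eq_one'
    exact congrArg Subtype.val h1
  -- the r-part
  let P : Subgroup G :=
    { carrier := {y | y ∈ D ∧ y ^ (r ^ b) = 1}
      one_mem' := ⟨D.one_mem, one_pow _⟩
      mul_mem' := by
        rintro y z ⟨hy, hy1⟩ ⟨hz, hz1⟩
        refine ⟨D.mul_mem hy hz, ?_⟩
        rw [(show Commute y z from hDc y hy z hz).mul_pow, hy1, hz1, one_mul]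
      inv_mem' := by
        rintro y ⟨hy, hy1⟩
        refine ⟨D.inv_mem hy, ?_⟩
        rw [inv_pow, hy1, inv_one] }
  have hPm : ∀ y, y ∈ P ↔ y ∈ D ∧ y ^ (r ^ b) = 1 := fun _ => Iff.rfl
  have hPn : P.Normal := by
    constructor
    rintro y ⟨hy, hy1⟩ g
    refine ⟨hD.conj_mem y hy g, ?_⟩
    rw [conj_pow, hy1]
    simp
  have hPp : IsPGroup r P := by
    intro y
    refine ⟨b, ?_⟩
    apply Subtype.ext
    simpa using y.2.2
  have hPc : IsMulCommutative P :=
    isMulCommutative_iff.2 (fun x y => Subtype.ext (hDc x x.2.1 y y.2.1))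
  -- the action of N on P
  let θ : N →* MulAut P :=
    { toFun := fun n =>
        { toFun := fun y => ⟨n * y * (n : G)⁻¹, hPn.conj_mem y y.2 n⟩
          invFun := fun y => ⟨(n : G)⁻¹ * y * n, by
            have h1 := hPn.conj_mem y y.2 (n : G)⁻¹
            rwa [inv_inv] at h1⟩
          left_inv := by
            intro y
            apply Subtype.ext
            simp only
            group
          right_inv := by
            intro y
            apply Subtype.ext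
            simp only
            group
          map_mul' := by
            intro y z
            apply Subtype.ext
            simp only [Subgroup.coe_mul]
            group }
      map_one' := by
        ext y
        simp
      map_mul' := by
        intro m n
        ext y
        change ((m * n : N) : G) * y * ((m * n : N) : G)⁻¹
          = m * (n * y * (n : G)⁻¹) * (m : G)⁻¹
        rw [Subgroup.coe_mul]
        group }
  have hθ : ∀ (n : N) (y : P), ((θ n y : P) : G) = n * y * (n : G)⁻¹ := fun _ _ => rfl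
  have hQ : ¬ r ∣ Nat.card θ.range := by
    intro hdvd
    obtain ⟨q, hq⟩ := exists_prime_orderOf_dvd_card' r hdvd
    obtain ⟨n, hn⟩ := q.2
    obtain ⟨a, s', hs', has⟩ := Nat.exists_eq_pow_mul_and_not_dvd
      (show orderOf (n : G) ≠ 0 from (orderOf_pos _).ne') r hr.ne_one
    have h1 : IsPGroup r (Subgroup.zpowers ((n : G) ^ s')) := by
      rw [IsPGroup.iff_card]
      refine ⟨a, ?_⟩
      rw [Nat.card_zpowers, orderOf_pow, has]
      have h2 : s' ≠ 0 := by
        rintro rfl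
        exact hs' (dvd_zero _)
      rw [Nat.gcd_eq_right (Dvd.intro_left _ rfl)]
      exact Nat.mul_div_cancel _ (Nat.pos_of_ne_zero h2)
    have h2 : IsPGroup r (P ⊔ Subgroup.zpowers ((n : G) ^ s') : Subgroup G) :=
      hPp.to_sup_of_normal_left h1
    have h3 : ∀ y : P, (n : G) ^ s' * y = y * (n : G) ^ s' := by
      intro y
      exact hab r hr _ h2 _ (Subgroup.mem_sup_right (Subgroup.mem_zpowers _)) _
        (Subgroup.mem_sup_left y.2)
    have h4 : θ n ^ s' = 1 := by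
      rw [← map_pow]
      ext y
      rw [hθ]
      have h5 : ((n ^ s' : N) : G) = (n : G) ^ s' := rfl
      rw [h5, h3]
      simp
    have h5 : (q : θ.range) ^ s' = 1 := by
      apply Subtype.ext
      rw [Subgroup.coe_pow, ← hn, h4]
      rfl
    have h6 := orderOf_dvd_of_pow_eq_one h5
    rw [hq] at h6
    exact hs' h6
  -- the norm
  have hfinQ : Fintype θ.range := Fintype.ofFinite _
  let ν : P →* P := ∏ q : θ.range, (q : MulAut P).toMonoidHom
  have hν : ∀ y, ν y = ∏ q : θ.range, (q : MulAut P) y := by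
    intro y
    simp [ν, MonoidHom.finsetProd_apply]
  have hνq : ∀ (n : N) (y : P), ν (θ n y) = ν y := by
    intro n y
    rw [hν, hν]
    refine Fintype.prod_equiv (Equiv.mulRight (⟨θ n, n, rfl⟩ : θ.range)) _ _ ?_
    intro q
    rfl
  -- the projection
  have hcop : Nat.Coprime s (r ^ b) :=
    Nat.Coprime.pow_right b ((Nat.Prime.coprime_iff_not_dvd hr).2 hs).symm
  obtain ⟨u, hu⟩ : ∃ u, s * u ≡ 1 [MOD r ^ b] := by
    rcases Nat.eq_zero_or_pos b with rfl | hb
    · exact ⟨0, by rw [pow_zero]; exact Nat.modEq_one⟩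
    · have h1 : 1 < r ^ b := Nat.one_lt_pow hb.ne' hr.one_lt
      obtain ⟨u, -, hu⟩ := Nat.exists_mul_mod_eq_one_of_coprime hcop h1
      exact ⟨u, by rw [Nat.ModEq, hu, Nat.mod_eq_of_lt h1]⟩
  have hpr1 : ∀ y ∈ D, y ^ (s * u) ∈ P := by
    intro y hy
    refine (hPm _).2 ⟨D.pow_mem hy _, ?_⟩
    rw [← pow_mul, show s * u * r ^ b = Nat.card D * u by rw [hbs]; ring, pow_mul,
      hpowD y hy, one_pow]
  have hpr2 : ∀ y ∈ P, y ^ (s * u) = y := by
    intro y hy
    have h1 := (hPm y).1 hy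
    have h2 : orderOf y ∣ r ^ b := orderOf_dvd_of_pow_eq_one h1.2
    have h3 : s * u ≡ 1 [MOD orderOf y] := hu.of_dvd h2
    have h4 := pow_eq_pow_iff_modEq.2 h3
    rwa [pow_one] at h4
  let pr : D →* P :=
    { toFun := fun y => ⟨(y : G) ^ (s * u), hpr1 y y.2⟩
      map_one' := by
        apply Subtype.ext
        simp
      map_mul' := by
        intro y z
        apply Subtype.ext
        simp only [Subgroup.coe_mul]
        exact (show Commute (y : G) z from hDc y y.2 z z.2).mul_pow _ }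
  have hpr : ∀ y : D, ((pr y : P) : G) = (y : G) ^ (s * u) := fun _ => rfl
  let M : Subgroup G := (ν.comp pr).ker.map D.subtype
  have hM : ∀ y (hy : y ∈ D), ν (pr ⟨y, hy⟩) = 1 → y ∈ M := by
    intro y hy h1
    exact ⟨⟨y, hy⟩, h1, rfl⟩
  have hDM : D ≤ M := by
    rw [← hcomm, Subgroup.commutator_le]
    intro d hd n hn
    have h1 : n * d⁻¹ * n⁻¹ ∈ D := hD.conj_mem _ (D.inv_mem hd) n
    have h2 : ⁅d, n⁆ = d * (n * d⁻¹ * n⁻¹) := by
      rw [commutatorElement_def]
      group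
    rw [h2]
    refine hM _ (D.mul_mem hd h1) ?_
    have h3 : (⟨d * (n * d⁻¹ * n⁻¹), D.mul_mem hd h1⟩ : D)
        = ⟨d, hd⟩ * ⟨n * d⁻¹ * n⁻¹, h1⟩ := rfl
    have h4 : pr ⟨n * d⁻¹ * n⁻¹, h1⟩ = θ ⟨n, hn⟩ (pr ⟨d, hd⟩)⁻¹ := by
      apply Subtype.ext
      rw [hpr, hθ]
      change (n * d⁻¹ * n⁻¹) ^ (s * u) = n * (d ^ (s * u))⁻¹ * n⁻¹
      rw [conj_pow, inv_pow]
    rw [h3, map_mul, h4, map_mul, hνq, ← map_mul, mul_inv_cancel, map_one]
  have hxP : x ∈ P := by
    refine (hPm x).2 ⟨hx, ?_⟩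
    rcases Nat.eq_zero_or_pos b with rfl | hb
    · have h1 : Nat.Coprime (Nat.card D) r := by
        rw [hbs, pow_zero, one_mul]
        exact ((Nat.Prime.coprime_iff_not_dvd hr).2 hs).symm
      have h2 : orderOf x ∣ Nat.gcd (Nat.card D) r :=
        Nat.dvd_gcd (orderOf_dvd_of_pow_eq_one (hpowD x hx)) (orderOf_dvd_of_pow_eq_one hxr)
      rw [h1] at h2
      have h3 : x = 1 := orderOf_eq_one_iff.1 (Nat.dvd_one.1 h2)
      rw [h3, one_pow]
    · obtain ⟨b', rfl⟩ := Nat.exists_eq_succ_of_ne_zero hb.ne'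
      rw [Nat.succ_eq_add_one, pow_succ', pow_mul, hxr, one_pow]
  obtain ⟨x', hx', hxx⟩ := hDM hx
  have h1 : ν (pr x') = 1 := hx'
  have h2 : pr x' = ⟨x, hxP⟩ := by
    apply Subtype.ext
    rw [hpr]
    have : (x' : G) = x := hxx
    rw [this]
    exact hpr2 x hxP
  rw [h2, hν] at h1
  have h3 : ∀ q : θ.range, (q : MulAut P) ⟨x, hxP⟩ = ⟨x, hxP⟩ := by
    rintro ⟨q, n, rfl⟩
    apply Subtype.ext
    change ((θ n ⟨x, hxP⟩ : P) : G) = x
    rw [hθ]
    change (n : G) * x * (n : G)⁻¹ = x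
    rw [hxN n n.2]
    group
  rw [Finset.prod_congr rfl (fun q _ => h3 q), Finset.prod_const, Finset.card_univ,
    ← Nat.card_eq_fintype_card] at h1
  have h4 : x ^ Nat.card θ.range = 1 := congrArg Subtype.val h1
  have h5 : Nat.Coprime r (Nat.card θ.range) := (Nat.Prime.coprime_iff_not_dvd hr).2 hQ
  have h6 : orderOf x ∣ Nat.gcd r (Nat.card θ.range) :=
    Nat.dvd_gcd (orderOf_dvd_of_pow_eq_one hxr) (orderOf_dvd_of_pow_eq_one h4)
  rw [h5] at h6
  exact orderOf_eq_one_iff.1 (Nat.dvd_one.1 h6)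

theorem exists_E {A G : Type*} [Group A] [Group G] [Finite G] (φ : A →* MulAut G)
    (hsol : Group.IsSolvable G) (hab : AbS G) (k : ℕ) (hk : R G k ≠ ⊥) :
    ∃ (r : ℕ) (E : Subgroup G), r.Prime ∧ E.Normal ∧ Inv φ E ∧ E ≠ ⊥ ∧
      (∀ x ∈ E, x ^ r = 1) ∧ (∀ x ∈ E, ∀ y ∈ E, x * y = y * x) ∧
      (∀ E' : Subgroup G, E'.Normal → Inv φ E' → E' ≤ E → E' = ⊥ ∨ E' = E) ∧
      (∀ j, j + 1 ≤ k → ∃ n ∈ R G j, ∃ x ∈ E, n * x ≠ x * n) := by
  classical
  obtain ⟨t, ht, ht1⟩ : ∃ t, R G (t + 1) = ⊥ ∧ R G t ≠ ⊥ := by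
    have h1 := R_bot hsol
    have h2 : R G (Nat.find h1) = ⊥ := Nat.find_spec h1
    have h3 : Nat.find h1 ≠ 0 := by
      intro h0
      rw [h0] at h2
      apply hk
      rw [← le_bot_iff, ← h2]
      exact R_antitone G (Nat.zero_le _)
    obtain ⟨t, ht⟩ := Nat.exists_eq_succ_of_ne_zero h3
    refine ⟨t, ?_, ?_⟩
    · rw [ht] at h2
      exact h2
    · exact Nat.find_min h1 (by omega)
  have hkt : k ≤ t := by
    by_contra hlt
    apply hk
    rw [← le_bot_iff, ← ht]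
    exact R_antitone G (by omega)
  have hDn : (R G t).Normal := R_normal G t
  have hDi : Inv φ (R G t) := R_inv φ t
  obtain ⟨c0, hc0⟩ := ires_eq_iter (R G t)
  have hDc : ∀ x ∈ R G t, ∀ y ∈ R G t, x * y = y * x := by
    apply comm_of_iter_bot hab (R G t) c0
    rw [hc0 c0 le_rfl]
    exact ht
  -- a minimal subgroup
  let S : Set (Subgroup G) := {E | E.Normal ∧ Inv φ E ∧ E ≠ ⊥ ∧ E ≤ R G t}
  have hS : S.Nonempty := ⟨R G t, hDn, hDi, ht1, le_rfl⟩
  obtain ⟨E, hE⟩ := S.toFinite.exists_minimal hS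
  obtain ⟨hEn, hEi, hE1, hEt⟩ := hE.prop
  have hmin : ∀ E' : Subgroup G, E'.Normal → Inv φ E' → E' ≤ E → E' = ⊥ ∨ E' = E := by
    intro E' h1 h2 h3
    by_cases h4 : E' = ⊥
    · exact Or.inl h4
    · exact Or.inr (le_antisymm h3 (hE.le_of_le ⟨h1, h2, h4, h3.trans hEt⟩ h3))
  have hEc : ∀ x ∈ E, ∀ y ∈ E, x * y = y * x := fun x hx y hy => hDc x (hEt hx) y (hEt hy)
  have hcard : Nat.card E ≠ 1 := by
    intro h
    exact hE1 (Subgroup.eq_bot_of_card_eq E h)
  obtain ⟨r, hr, hrd⟩ := Nat.exists_prime_and_dvd hcard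
  have hrF := Fact.mk hr
  obtain ⟨z, hz⟩ := exists_prime_orderOf_dvd_card' r hrd
  let Er : Subgroup G :=
    { carrier := {y | y ∈ E ∧ y ^ r = 1}
      one_mem' := ⟨E.one_mem, one_pow _⟩
      mul_mem' := by
        rintro y z ⟨hy, hy1⟩ ⟨hz, hz1⟩
        refine ⟨E.mul_mem hy hz, ?_⟩
        rw [(show Commute y z from hEc y hy z hz).mul_pow, hy1, hz1, one_mul]
      inv_mem' := by
        rintro y ⟨hy, hy1⟩
        refine ⟨E.inv_mem hy, ?_⟩
        rw [inv_pow, hy1, inv_one] }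
  have hErn : Er.Normal := by
    constructor
    rintro y ⟨hy, hy1⟩ g
    refine ⟨hEn.conj_mem y hy g, ?_⟩
    rw [conj_pow, hy1]
    simp
  have hEri : Inv φ Er := by
    intro a y hy
    refine ⟨hEi a y hy.1, ?_⟩
    rw [← map_pow, hy.2, map_one]
  have hEr : Er = E := by
    rcases hmin Er hErn hEri (fun y hy => hy.1) with h | h
    · exfalso
      have h1 : (z : G) ∈ Er := by
        refine ⟨z.2, ?_⟩
        have h2 : z ^ r = 1 := by rw [← hz]; exact pow_orderOf_eq_one z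
        exact congrArg Subtype.val h2
      rw [h, Subgroup.mem_bot] at h1
      have h2 : z = 1 := Subtype.ext h1
      rw [h2, orderOf_one] at hz
      exact hr.one_lt.ne hz
    · exact h
  have hexp : ∀ x ∈ E, x ^ r = 1 := by
    intro x hx
    rw [← hEr] at hx
    exact hx.2
  refine ⟨r, E, hr, hEn, hEi, hE1, hexp, hEc, hmin, ?_⟩
  intro j hj
  by_contra hcon
  push Not at hcon
  obtain ⟨t', rfl⟩ : ∃ t', t = t' + 1 := ⟨t - 1, by omega⟩
  have hcomm : ⁅R G (t' + 1), R G t'⁆ = R G (t' + 1) := ires_comm (R G t')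
  apply hE1
  rw [eq_bot_iff]
  intro x hx
  rw [Subgroup.mem_bot]
  refine EXE_key hab (R G (t' + 1)) (R G t') hDn hDc hcomm r hr x (hEt hx) (hexp x hx) ?_
  intro n hn
  exact hcon n (R_antitone G (by omega) hn) x hx

end Pool.Agent.FH
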