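import Pool.Agent.FH.STEP

set_option autoImplicit false

namespace Pool.Agent.FH

open scoped commutatorElement IsMulCommutative

theorem fin_comm_inv {A G : Type*} [Group A] [Group G] (φ : A →* MulAut G)
    (X Y : Subgroup G) (hX : Inv φ X) (hY : Inv φ Y) : Inv φ ⁅X, Y⁆ := by
  intro a y hy
  have h1 : ⁅X, Y⁆ ≤ (⁅X, Y⁆).comap (φ a).toMonoidHom := by
    rw [Subgroup.commutator_le]
    intro e he x hx
    rw [Subgroup.mem_comap]
    have h2 : (φ a).toMonoidHom ⁅e, x⁆ = ⁅φ a e, φ a x⁆ := by
      simp [commutatorElement_def]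
    rw [h2]
    exact Subgroup.commutator_mem_commutator (hX a e he) (hY a x hx)
  exact h1 hy

/-- The minimal situation. -/
theorem fin_min {A : Type} [Group A] [Finite A] (f : Subgroup A → ℕ) (hf : StrictMono f)
    {G : Type} [Group G] [Finite G] (φ : A →* MulAut G) (hsol : Group.IsSolvable G)
    (hcop : Nat.Coprime (Nat.card G) (Nat.card A)) (hfix : FPF φ) (N : Subgroup G)
    [N.Normal] (hN : Inv φ N) (c : ℕ) (hc : iter N c = ⊥) (hab : AbS (G ⧸ N)) (n : ℕ)
    (hn : f ⊤ ≤ n) (hR : R G n ≠ ⊥)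
    (hmin : ∀ X : Subgroup G, X.Normal → Inv φ X → X ≠ ⊥ → R G n ≤ X) : False := by
  classical
  have hVn : (R G n).Normal := R_normal G n
  have hVi : Inv φ (R G n) := R_inv φ n
  -- `V` is commutative
  have h1 : ⁅R G n, R G n⁆ = ⊥ := by
    by_contra h0
    have h2 := hmin _ (Subgroup.commutator_normal _ _) (fin_comm_inv φ _ _ hVi hVi) h0
    obtain ⟨k, hk⟩ := (Group.isSolvable_def G).1 hsol
    have h3 : ∀ k, R G n ≤ derivedSeries G k := by
      intro k
      induction k with
      | zero => simp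
      | succ k ih =>
        rw [derivedSeries_succ]
        exact h2.trans (Subgroup.commutator_mono ih ih)
    apply hR
    rw [eq_bot_iff, ← hk]
    exact h3 k
  have hVc : ∀ x ∈ R G n, ∀ y ∈ R G n, x * y = y * x := by
    intro x hx y hy
    have h2 := Subgroup.commutator_mem_commutator hx hy
    rw [h1, Subgroup.mem_bot, commutatorElement_eq_one_iff_mul_comm] at h2
    exact h2
  have hVc' : IsMulCommutative (R G n) :=
    isMulCommutative_iff.2 (fun x y => Subtype.ext (hVc x x.2 y y.2))
  -- exponent `p`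
  have hnt : Nontrivial (R G n) := (Subgroup.nontrivial_iff_ne_bot _).2 hR
  obtain ⟨p, hp, hpd⟩ := Nat.exists_prime_and_dvd
    (show Nat.card (R G n) ≠ 1 from (Finite.one_lt_card (α := R G n)).ne')
  have hpF := Fact.mk hp
  have hVp : ∀ v : R G n, v ^ p = 1 := by
    let P0 : Subgroup G := ((powMonoidHom p : R G n →* R G n).ker).map (R G n).subtype
    have hP0m : ∀ x, x ∈ P0 ↔ x ∈ R G n ∧ x ^ p = 1 := by
      intro x
      constructor
      · rintro ⟨y, hy, rfl⟩
        refine ⟨y.2, ?_⟩
        have h2 : y ^ p = 1 := hy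
        have h3 := congrArg Subtype.val h2
        simpa using h3
      · rintro ⟨hx, hx1⟩
        refine ⟨⟨x, hx⟩, ?_, rfl⟩
        change (⟨x, hx⟩ : R G n) ^ p = 1
        apply Subtype.ext
        simpa using hx1
    have h2 : R G n ≤ P0 := by
      apply hmin
      · constructor
        intro x hx g
        rw [hP0m] at hx ⊢
        refine ⟨hVn.conj_mem x hx.1 g, ?_⟩
        rw [conj_pow, hx.2]
        simp
      · intro a x hx
        rw [hP0m] at hx ⊢
        refine ⟨hVi a x hx.1, ?_⟩
        rw [← map_pow, hx.2, map_one]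
      · obtain ⟨y, hy⟩ := exists_prime_orderOf_dvd_card' p hpd
        intro h0
        have h3 : (y : G) ∈ P0 := by
          rw [hP0m]
          refine ⟨y.2, ?_⟩
          have h4 : y ^ p = 1 := by
            rw [← hy]
            exact pow_orderOf_eq_one y
          have h5 := congrArg Subtype.val h4
          simpa using h5
        rw [h0, Subgroup.mem_bot] at h3
        have h4 : y = 1 := Subtype.ext h3
        rw [h4, orderOf_one] at hy
        exact hp.one_lt.ne hy
    intro v
    apply Subtype.ext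
    have h3 := ((hP0m v).1 (h2 v.2)).2
    simpa using h3
  have hpA : ¬ p ∣ Nat.card A := by
    intro h
    have h2 : p ∣ Nat.card G := hpd.trans (Subgroup.card_subgroup_dvd_card _)
    have h3 := Nat.dvd_gcd h2 h
    rw [hcop] at h3
    exact hp.one_lt.ne' (Nat.dvd_one.1 h3)
  -- `N` centralizes `V`
  have hVN : ⁅R G n, N⁆ = ⊥ := by
    by_contra h0
    have h2 := hmin _ (Subgroup.commutator_normal _ _) (fin_comm_inv φ _ _ hVi hN) h0
    have h3 : ∀ j, R G n ≤ iter N j := by
      intro j
      induction j with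
      | zero => exact h2.trans (Subgroup.commutator_le_right _ _)
      | succ j ih =>
        rw [iter_succ]
        exact h2.trans (Subgroup.commutator_mono ih le_rfl)
    apply hR
    rw [eq_bot_iff, ← hc]
    exact h3 c
  have hNc : ∀ x ∈ N, ∀ v ∈ R G n, x * v * x⁻¹ = v := by
    intro x hx v hv
    have h2 := Subgroup.commutator_mem_commutator hv hx
    rw [hVN, Subgroup.mem_bot, commutatorElement_eq_one_iff_mul_comm] at h2
    rw [← h2]
    simp
  have hVconj : Inv (MulAut.conj.comp (MonoidHom.id G)) (R G n) :=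
    step_inv_conj (MonoidHom.id G) _ hVn
  let ρ1 : (G ⧸ N) →* MulAut (R G n) :=
    QuotientGroup.lift N (conjAct (MonoidHom.id G) (R G n) hVconj) (by
      intro x hx
      ext v
      exact hNc x hx v v.2)
  have hρ1 : ∀ (g : G) (v : R G n), ((ρ1 (QuotientGroup.mk g) v : R G n) : G)
      = g * v * g⁻¹ := by
    intro g v
    rfl
  obtain ⟨φ1, hφ1⟩ := exists_quot_action φ N hN
  have hsol1 : Group.IsSolvable (G ⧸ N) :=
    Group.isSolvable_of_surjective (QuotientGroup.mk'_surjective N)
  have hcop1 : Nat.Coprime (Nat.card (G ⧸ N)) (Nat.card A) :=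
    Nat.Coprime.coprime_dvd_left (Subgroup.card_quotient_dvd_card _) hcop
  have hfix1 : FPF φ1 := fpf_of_surj φ φ1 hsol hcop hfix (QuotientGroup.mk' N)
    (QuotientGroup.mk'_surjective N) (fun a g => (hφ1 a g).symm)
  let α : A →* MulAut (R G n) := restrictAct φ (R G n) hVi
  have hαc : ∀ a (v : R G n), ((α a v : R G n) : G) = φ a v := fun _ _ => rfl
  have hcompat : ∀ a (g : G ⧸ N) v, α a (ρ1 g v) = ρ1 (φ1 a g) (α a v) := by
    intro a g v
    obtain ⟨y, rfl⟩ := QuotientGroup.mk_surjective g
    apply Subtype.ext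
    rw [hαc, hρ1, hφ1, hρ1, hαc, map_mul, map_mul, map_inv]
  have hα : FPF α := by
    intro v hv
    apply Subtype.ext
    apply hfix
    intro a
    have h2 := congrArg Subtype.val (hv a)
    exact h2
  have hprim : Prim φ1 ρ1 := by
    intro X1 hX1 hX1i
    let X : Subgroup G := X1.comap (QuotientGroup.mk' N)
    have hXn : X.Normal := hX1.comap _
    have hXi : Inv φ X := by
      intro a x hx
      have h2 : (QuotientGroup.mk x : G ⧸ N) ∈ X1 := hx
      have h3 := hX1i a _ h2
      rw [hφ1] at h3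
      exact h3
    let C : Subgroup G := R G n ⊓ Subgroup.centralizer (X : Set G)
    have hCm : ∀ v, v ∈ C ↔ v ∈ R G n ∧ ∀ x ∈ X, x * v = v * x := by
      intro v
      rw [Subgroup.mem_inf, Subgroup.mem_centralizer_iff]
      rfl
    have hCn : C.Normal := by
      constructor
      intro v hv g
      rw [hCm] at hv ⊢
      refine ⟨hVn.conj_mem v hv.1 g, ?_⟩
      intro x hx
      have h2 : g⁻¹ * x * g ∈ X := by
        have h3 := hXn.conj_mem x hx g⁻¹
        rwa [inv_inv] at h3
      have h4 := hv.2 _ h2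
      calc x * (g * v * g⁻¹) = g * (g⁻¹ * x * g * v) * g⁻¹ := by group
        _ = g * (v * (g⁻¹ * x * g)) * g⁻¹ := by rw [h4]
        _ = g * v * g⁻¹ * x := by group
    have hCi : Inv φ C := by
      intro a v hv
      rw [hCm] at hv ⊢
      refine ⟨hVi a v hv.1, ?_⟩
      intro x hx
      have h2 := hv.2 _ (hXi a⁻¹ x hx)
      have h3 := congrArg (φ a) h2
      rw [map_mul, map_mul] at h3
      have h4 : φ a (φ a⁻¹ x) = x := by
        rw [← MulAut.mul_apply, ← map_mul]
        simp
      rw [h4] at h3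
      exact h3
    by_cases hC : C = ⊥
    · right
      intro v hv
      have h2 : (v : G) ∈ C := by
        rw [hCm]
        refine ⟨v.2, ?_⟩
        intro x hx
        have h3 := hv (QuotientGroup.mk x) hx
        have h4 := congrArg Subtype.val h3
        rw [hρ1] at h4
        exact mul_inv_eq_iff_eq_mul.1 h4
      rw [hC, Subgroup.mem_bot] at h2
      exact Subtype.ext h2
    · left
      intro g hg v
      have h2 := hmin C hCn hCi hC
      obtain ⟨y, rfl⟩ := QuotientGroup.mk_surjective g
      apply Subtype.ext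
      rw [hρ1]
      have h3 := ((hCm v).1 (h2 v.2)).2 y hg
      rw [h3]
      simp
  have hk : ∀ j, j + 1 = n → ∃ m ∈ R (G ⧸ N) j, ∃ v, ρ1 m v ≠ v := by
    intro j hj
    have h2 : ⁅R G (j + 1), R G j⁆ = R G (j + 1) := ires_comm (R G j)
    by_contra hcon
    apply hR
    rw [← hj, ← h2, Subgroup.commutator_eq_bot_iff_le_centralizer]
    intro v hv
    rw [hj] at hv
    rw [Subgroup.mem_centralizer_iff]
    intro y hy
    by_contra h3
    apply hcon
    refine ⟨QuotientGroup.mk y, ?_, ⟨v, hv⟩, ?_⟩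
    · rw [← R_map (QuotientGroup.mk' N) (QuotientGroup.mk'_surjective N) j]
      exact ⟨y, hy, rfl⟩
    · intro h4
      have h5 := congrArg Subtype.val h4
      rw [hρ1] at h5
      apply h3
      exact mul_inv_eq_iff_eq_mul.1 h5
  obtain ⟨v, hv⟩ := exists_ne (1 : R G n)
  obtain ⟨g, hg⟩ := main_step f hf φ1 hsol1 hcop1 hfix1 hab n (R G n) p hp hVp hpA α ρ1
    hcompat hα hprim hk v hv
  omega

theorem R_eq_bot {A : Type} [Group A] [Finite A] (f : Subgroup A → ℕ) (hf : StrictMono f)
    {G : Type} [Group G] [Finite G] (φ : A →* MulAut G) (hsol : Group.IsSolvable G)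
    (hcop : Nat.Coprime (Nat.card G) (Nat.card A)) (hfix : FPF φ) (N : Subgroup G)
    [N.Normal] (hN : Inv φ N) (c : ℕ) (hc : iter N c = ⊥) (hab : AbS (G ⧸ N)) (n : ℕ)
    (hn : f ⊤ ≤ n) : R G n = ⊥ := by
  classical
  by_contra hR
  let S : Set (Subgroup G) := {L | L.Normal ∧ Inv φ L ∧ ¬ R G n ≤ L}
  have hfin : S.Finite := Set.toFinite S
  have hne : S.Nonempty := by
    refine ⟨⊥, inferInstance, ?_, ?_⟩
    · intro a x hx
      rw [Subgroup.mem_bot] at hx ⊢
      rw [hx, map_one]
    · rw [le_bot_iff]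
      exact hR
  obtain ⟨L, hL⟩ := hfin.exists_maximal hne
  obtain ⟨⟨hLn, hLi, hLR⟩, hLmax⟩ := hL
  obtain ⟨φ', hφ'⟩ := exists_quot_action φ L hLi
  let π : G →* G ⧸ L := QuotientGroup.mk' L
  have hπs : Function.Surjective π := QuotientGroup.mk'_surjective L
  have hsol' : Group.IsSolvable (G ⧸ L) := Group.isSolvable_of_surjective hπs
  have hcop' : Nat.Coprime (Nat.card (G ⧸ L)) (Nat.card A) :=
    Nat.Coprime.coprime_dvd_left (Subgroup.card_quotient_dvd_card _) hcop
  have hfix' : FPF φ' := fpf_of_surj φ φ' hsol hcop hfix π hπs (fun a g => (hφ' a g).symm)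
  let N' : Subgroup (G ⧸ L) := N.map π
  have hN'n : N'.Normal := Subgroup.Normal.map inferInstance π hπs
  have hN'i : Inv φ' N' := by
    rintro a _ ⟨x, hx, rfl⟩
    have h2 : φ' a (π x) = π (φ a x) := hφ' a x
    rw [h2]
    exact ⟨φ a x, hN a x hx, rfl⟩
  have hN'c : iter N' c = ⊥ := by
    have h2 : ∀ j, iter N' j = (iter N j).map π := by
      intro j
      induction j with
      | zero => rfl
      | succ j ih => rw [iter_succ, iter_succ, ih, Subgroup.map_commutator]
    rw [h2, hc, Subgroup.map_bot]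
  have hab' : AbS ((G ⧸ L) ⧸ N') := by
    let θ : G ⧸ N →* (G ⧸ L) ⧸ N' := QuotientGroup.lift N ((QuotientGroup.mk' N').comp π) (by
      intro x hx
      change (QuotientGroup.mk (π x) : (G ⧸ L) ⧸ N') = 1
      rw [QuotientGroup.eq_one_iff]
      exact ⟨x, hx, rfl⟩)
    apply abs_surj hab θ
    intro y
    obtain ⟨z, rfl⟩ := QuotientGroup.mk_surjective y
    obtain ⟨g, rfl⟩ := hπs z
    exact ⟨QuotientGroup.mk g, rfl⟩
  have hRm : (R G n).map π = R (G ⧸ L) n := R_map π hπs n
  apply fin_min f hf φ' hsol' hcop' hfix' N' hN'i c hN'c hab' n hn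
  · intro h0
    apply hLR
    rw [← hRm, Subgroup.map_eq_bot_iff, QuotientGroup.ker_mk'] at h0
    exact h0
  · intro X hXn hXi hX
    have h3 : ¬ (X.comap π ∈ S) := by
      intro hXS
      have h4 : L ≤ X.comap π := by
        intro x hx
        rw [Subgroup.mem_comap]
        have h5 : π x = 1 := (QuotientGroup.eq_one_iff x).2 hx
        rw [h5]
        exact X.one_mem
      have h5 := hLmax hXS h4
      apply hX
      rw [eq_bot_iff]
      intro y hy
      obtain ⟨x, rfl⟩ := hπs y
      have h6 : x ∈ L := h5 hy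
      rw [Subgroup.mem_bot]
      exact (QuotientGroup.eq_one_iff x).2 h6
    have h4 : R G n ≤ X.comap π := by
      by_contra h5
      apply h3
      refine ⟨hXn.comap π, ?_, h5⟩
      intro a x hx
      rw [Subgroup.mem_comap] at hx ⊢
      have h6 : φ' a (π x) = π (φ a x) := hφ' a x
      rw [← h6]
      exact hXi a _ hx
    rw [← hRm, Subgroup.map_le_iff_le_comap]
    exact h4

end Pool.Agent.FH
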