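import Mathlib
import Pool.Agent.FH.Defs
import Pool.Agent.FH.DUAL

set_option autoImplicit false

namespace Pool.Agent.FH

open Finset

theorem key_cast_ne {K : Type*} [Field K] (p : ℕ) [CharP K p] {n : ℕ} (h : ¬ p ∣ n) :
    (n : K) ≠ 0 := by
  intro h0
  exact h ((CharP.cast_eq_zero_iff K p n).1 h0)

/-- a nontrivial character has sum zero -/
theorem key_sum_zero {E K : Type*} [CommGroup E] [Fintype E] [Field K] (χ : E →* Kˣ)
    (hχ : χ ≠ 1) : ∑ e : E, ((χ e : Kˣ) : K) = 0 := by
  have h := sum_hom_units_eq_zero ((Units.coeHom K).comp χ) (by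
    intro h
    apply hχ
    ext e
    have := DFunLike.congr_fun h e
    simpa using this)
  simpa using h

theorem key_dual {W : Type*} (p : ℕ) [Fact p.Prime] [AddCommGroup W] [Module (ZMod p) W] (w : W)
    (hw : w ≠ 0) : ∃ f : W →+ ZMod p, f w ≠ 0 := by
  by_contra hcon
  push Not at hcon
  apply hw
  rw [← Module.forall_dual_apply_eq_zero_iff (ZMod p)]
  intro φ
  exact hcon φ.toAddMonoidHom

/-- an additive function which does not vanish at a given vector -/
theorem key_exists_F {V K : Type*} [CommGroup V] [Field K] (p : ℕ) (hp : p.Prime) [CharP K p]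
    (hV : ∀ v : V, v ^ p = 1) (v : V) (hv : v ≠ 1) :
    ∃ F : V → K, (∀ u w, F (u * w) = F u + F w) ∧ F v ≠ 0 := by
  have : Fact p.Prime := ⟨hp⟩
  obtain ⟨f, hf⟩ := @key_dual (Additive V) p _ _ (AddCommGroup.zmodModule (n := p) (by
    intro x
    have := hV (Additive.toMul x)
    apply Additive.toMul.injective
    simpa using this)) (Additive.ofMul v) (by simpa using hv)
  refine ⟨fun u => ZMod.castHom (dvd_refl p) K (f (Additive.ofMul u)), ?_, ?_⟩
  · intro u w
    show ZMod.castHom (dvd_refl p) K (f (Additive.ofMul (u * w))) = _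
    rw [ofMul_mul, map_add, map_add]
  · intro h0
    apply hf
    apply ZMod.castHom_injective K
    rw [map_zero]
    exact h0

theorem key_F_one {V K : Type*} [CommGroup V] [Field K] {F : V → K}
    (hF : ∀ u w, F (u * w) = F u + F w) : F 1 = 0 := by
  have := hF 1 1
  rw [mul_one] at this
  simpa using this

theorem key_F_prod {V K ι : Type*} [CommGroup V] [Field K] {F : V → K}
    (hF : ∀ u w, F (u * w) = F u + F w) (s : Finset ι) (g : ι → V) :
    F (∏ i ∈ s, g i) = ∑ i ∈ s, F (g i) := by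
  classical
  induction s using Finset.induction_on with
  | empty => simpa using key_F_one hF
  | insert a s ha ih => rw [prod_insert ha, sum_insert ha, hF, ih]

/-- the product of an orbit is fixed -/
theorem key_prod_fixed {E V : Type*} [Group E] [Fintype E] [CommGroup V]
    (σ : E →* MulAut V) (v : V) (e : E) : σ e (∏ x : E, σ x v) = ∏ x : E, σ x v := by
  rw [map_prod]
  refine Fintype.prod_equiv (Equiv.mulLeft e) _ _ ?_
  intro a
  simp

theorem exists_l {E V K : Type*} [CommGroup E] [Fintype E] [CommGroup V] [Finite V] [Field K]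
    [IsAlgClosed K] (p : ℕ) (hp : p.Prime) [CharP K p] (hV : ∀ v : V, v ^ p = 1)
    (hpE : ¬ p ∣ Nat.card E) (σ : E →* MulAut V)
    (hE : ∀ v, (∀ e, σ e v = v) → v = 1) (v : V) (hv : v ≠ 1) :
    ∃ l : E →* Kˣ, l ≠ 1 ∧ ∃ F : V → K, (∀ u w, F (u * w) = F u + F w) ∧
      ∑ e : E, (((l e)⁻¹ : Kˣ) : K) * F (σ e v) ≠ 0 := by
  classical
  obtain ⟨F, hF, hFv⟩ := key_exists_F (K := K) p hp hV v hv
  have hK : ((Nat.card E : ℕ) : K) ≠ 0 := key_cast_ne p hpE
  have := dual_finite hK
  have : Fintype (E →* Kˣ) := Fintype.ofFinite _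
  have hsum : ∑ l : E →* Kˣ, ∑ e : E, (((l e)⁻¹ : Kˣ) : K) * F (σ e v) ≠ 0 := by
    rw [sum_comm]
    have h1 : ∀ e : E, ∑ l : E →* Kˣ, (((l e)⁻¹ : Kˣ) : K) * F (σ e v) =
        if e = 1 then (Nat.card E : K) * F v else 0 := by
      intro e
      rw [← sum_mul]
      by_cases he : e = 1
      · subst he
        simp only [map_one, inv_one, Units.val_one, sum_const, card_univ, if_true,
          nsmul_eq_mul, mul_one, MulAut.one_apply]
        rw [← Nat.card_eq_fintype_card, dual_card hK]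
      · rw [if_neg he]
        have : ∃ l0 : E →* Kˣ, l0 e ≠ 1 := by
          by_contra hcon
          push Not at hcon
          exact he (dual_separate hK hcon)
        obtain ⟨l0, hl0⟩ := this
        have h2 : ∑ l : E →* Kˣ, (((l e)⁻¹ : Kˣ) : K) = 0 := by
          have h3 : ∑ l : E →* Kˣ, (((l e)⁻¹ : Kˣ) : K) =
              (((l0 e)⁻¹ : Kˣ) : K) * ∑ l : E →* Kˣ, (((l e)⁻¹ : Kˣ) : K) := by
            rw [mul_sum]
            refine (Fintype.sum_equiv (Equiv.mulLeft l0) _ _ ?_).symm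
            intro l
            rw [← Units.val_mul, ← mul_inv]
            rfl
          have h4 : (1 - (((l0 e)⁻¹ : Kˣ) : K)) * ∑ l : E →* Kˣ, (((l e)⁻¹ : Kˣ) : K) = 0 := by
            rw [sub_mul, one_mul, ← h3, sub_self]
          rcases mul_eq_zero.1 h4 with h5 | h5
          · exfalso
            apply hl0
            have h6 : (((l0 e)⁻¹ : Kˣ) : K) = ((1 : Kˣ) : K) := by
              rw [Units.val_one]
              exact (sub_eq_zero.1 h5).symm
            have h7 := Units.ext h6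
            rwa [inv_eq_one] at h7
          · exact h5
        rw [h2, zero_mul]
    simp only [h1, sum_ite_eq', mem_univ, if_true]
    exact mul_ne_zero hK hFv
  obtain ⟨l, _, hl⟩ := exists_ne_zero_of_sum_ne_zero hsum
  refine ⟨l, ?_, F, hF, hl⟩
  rintro rfl
  apply hl
  simp only [MonoidHom.one_apply, inv_one, Units.val_one, one_mul]
  rw [← key_F_prod hF, hE _ (key_prod_fixed σ v), key_F_one hF]

/-- first cohomology of a coprime action on a finite commutative group -/
theorem key_h1 {A D : Type*} [Group A] [Finite A] [CommGroup D] [Finite D] (β : A →* MulAut D)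
    (hcop : Nat.Coprime (Nat.card D) (Nat.card A)) (c : A → D)
    (hc : ∀ a b, c (a * b) = c a * β a (c b)) : ∃ d : D, ∀ a, c a = d * (β a d)⁻¹ := by
  classical
  have : Fintype A := Fintype.ofFinite A
  let d : D := (powCoprime hcop).symm (∏ b : A, c b)
  have hd : d ^ (Nat.card A) = ∏ b : A, c b := by
    have := (powCoprime hcop).apply_symm_apply (∏ b : A, c b)
    rwa [powCoprime_apply] at this
  refine ⟨d, fun a => ?_⟩
  apply (powCoprime hcop).injective
  have h0 : (β a d) ^ (Nat.card A) = β a (∏ b : A, c b) := by rw [← map_pow, hd]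
  rw [powCoprime_apply, powCoprime_apply, mul_pow, inv_pow, h0, hd]
  have h1 : ∏ b : A, c b = ∏ b : A, c (a * b) :=
    (Fintype.prod_equiv (Equiv.mulLeft a) _ _ (fun b => rfl)).symm
  have h2 : ∏ b : A, c (a * b) = (c a) ^ (Nat.card A) * β a (∏ b : A, c b) := by
    rw [map_prod, Nat.card_eq_fintype_card, ← card_univ, ← prod_const, ← prod_mul_distrib]
    exact prod_congr rfl fun b _ => hc a b
  rw [eq_mul_inv_iff_mul_eq, ← h2, ← h1]

/-- Key statement. -/
theorem key {A E V K : Type*} [Group A] [Finite A] [CommGroup E] [Fintype E] [CommGroup V]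
    [Finite V] [Field K] [IsAlgClosed K] (p : ℕ) (hp : p.Prime) [CharP K p]
    (hV : ∀ v : V, v ^ p = 1) (hpE : ¬ p ∣ Nat.card E) (hpA : ¬ p ∣ Nat.card A)
    (hcop : Nat.Coprime (Nat.card E) (Nat.card A)) (β : A →* MulAut E) (α : A →* MulAut V)
    (σ : E →* MulAut V) (hc : ∀ a e v, α a (σ e v) = σ (β a e) (α a v)) (hα : FPF α)
    (v : V) (l : E →* Kˣ) (F : V → K) (hF : ∀ u w, F (u * w) = F u + F w)
    (hl : ∑ e : E, (((l e)⁻¹ : Kˣ) : K) * F (σ e v) ≠ 0) :
    ∃ e : E, (∀ a, α a (σ e v) = σ e v → ∀ x, l (β a x) = l x) ∧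
      ∃ a, (∀ x, l (β a x) = l x) ∧ α a (σ e v) ≠ σ e v := by
  classical
  have : Fintype A := Fintype.ofFinite A
  have hKE : ((Nat.card E : ℕ) : K) ≠ 0 := key_cast_ne p hpE
  have hσm : ∀ e e' : E, ∀ u : V, σ e (σ e' u) = σ (e * e') u := by
    intro e e' u; rw [map_mul, MulAut.mul_apply]
  have hαm : ∀ a b : A, ∀ u : V, α a (α b u) = α (a * b) u := by
    intro a b u; rw [map_mul, MulAut.mul_apply]
  have hβm : ∀ a b : A, ∀ u : E, β a (β b u) = β (a * b) u := by
    intro a b u; rw [map_mul, MulAut.mul_apply]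
  -- the function Φ
  let Φ : V → K := fun u => ∑ e : E, (((l e)⁻¹ : Kˣ) : K) * F (σ e u)
  have hΦdef : ∀ u, Φ u = ∑ e : E, (((l e)⁻¹ : Kˣ) : K) * F (σ e u) := fun u => rfl
  have hΦmul : ∀ u w, Φ (u * w) = Φ u + Φ w := by
    intro u w
    rw [hΦdef, hΦdef, hΦdef, ← sum_add_distrib]
    refine sum_congr rfl fun e _ => ?_
    rw [map_mul, hF, mul_add]
  have hΦσ : ∀ e' u, Φ (σ e' u) = ((l e' : Kˣ) : K) * Φ u := by
    intro e' u
    rw [hΦdef, hΦdef, mul_sum]
    refine Fintype.sum_equiv (Equiv.mulRight e') _ _ ?_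
    intro e
    simp only [Equiv.coe_mulRight]
    rw [hσm, ← mul_assoc, ← Units.val_mul]
    congr 3
    rw [map_mul l]
    group
  -- the stabilizer of v in E
  let R0 : Subgroup E := stab σ v
  have hR0 : ∀ e, e ∈ R0 ↔ σ e v = v := fun e => Iff.rfl
  have hlR0 : ∀ e ∈ R0, l e = 1 := by
    intro e he
    have h1 := hΦσ e v
    rw [(hR0 e).1 he] at h1
    have h2 : (((l e : Kˣ) : K) - 1) * Φ v = 0 := by rw [sub_mul, one_mul, ← h1, sub_self]
    rcases mul_eq_zero.1 h2 with h3 | h3
    · apply Units.ext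
      rw [Units.val_one]
      exact sub_eq_zero.1 h3
    · exact absurd h3 hl
  -- the group A0
  let A0 : Subgroup A :=
    { carrier := {a | ∃ e, α a v = σ e v}
      one_mem' := ⟨1, by simp⟩
      mul_mem' := by
        rintro a b ⟨e, he⟩ ⟨e', he'⟩
        refine ⟨β a e' * e, ?_⟩
        rw [← hαm, he', hc, he, hσm]
      inv_mem' := by
        rintro a ⟨e, he⟩
        refine ⟨(β a⁻¹ e)⁻¹, ?_⟩
        have h1 : α a⁻¹ (α a v) = v := by rw [hαm]; simp
        rw [he, hc] at h1
        have h2 : σ (β a⁻¹ e)⁻¹ (σ (β a⁻¹ e) (α a⁻¹ v)) = α a⁻¹ v := by rw [hσm]; simp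
        rw [← h2, h1] }
  have hA0 : ∀ a, a ∈ A0 ↔ ∃ e, α a v = σ e v := fun a => Iff.rfl
  have hR0inv : ∀ a ∈ A0, ∀ r ∈ R0, β a r ∈ R0 := by
    intro a ha r hr
    obtain ⟨e, he⟩ := (hA0 a).1 ha
    rw [hR0] at hr ⊢
    have h1 : σ (β a r) (α a v) = α a v := by rw [← hc, hr]
    rw [he, hσm, mul_comm, ← hσm] at h1
    exact (σ e).injective h1
  have hmap : ∀ a : A0, R0.map ((β a : MulAut E) : E ≃* E).toMonoidHom = R0 := by
    intro a
    apply le_antisymm
    · rintro _ ⟨r, hr, rfl⟩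
      exact hR0inv a a.2 r hr
    · intro r hr
      refine ⟨β (a⁻¹ : A0) r, hR0inv _ (a⁻¹ : A0).2 r hr, ?_⟩
      show β a (β (a⁻¹ : A0) r) = r
      rw [hβm]
      simp
  let β' : A0 →* MulAut (E ⧸ R0) :=
    { toFun := fun a => QuotientGroup.congr R0 R0 (β a) (hmap a)
      map_one' := by
        ext x
        induction x using QuotientGroup.induction_on with
        | H e => simp
      map_mul' := by
        intro a b
        ext x
        induction x using QuotientGroup.induction_on with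
        | H e => simp }
  have hβ' : ∀ (a : A0) (e : E), β' a (e : E ⧸ R0) = ((β a e : E) : E ⧸ R0) := fun a e => rfl
  have hch : ∀ a : A0, ∃ e, α a v = σ e v := fun a => a.2
  choose ec hec using hch
  let c : A0 → E ⧸ R0 := fun a => ((ec a : E) : E ⧸ R0)
  have hcc : ∀ (a : A0) (e : E), α a v = σ e v → c a = (e : E ⧸ R0) := by
    intro a e he
    have h1 := hec a
    rw [QuotientGroup.eq, hR0, ← hσm, ← he, h1, hσm]
    simp
  have hcop' : Nat.Coprime (Nat.card (E ⧸ R0)) (Nat.card A0) := by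
    refine Nat.Coprime.coprime_dvd_left (Subgroup.card_quotient_dvd_card R0) ?_
    exact Nat.Coprime.coprime_dvd_right (Subgroup.card_subgroup_dvd_card A0) hcop
  have hcoc : ∀ a b : A0, c (a * b) = c a * β' a (c b) := by
    intro a b
    have h1 := hec a
    have h2 := hec b
    rw [hcc a _ h1, hcc b _ h2, hβ', ← QuotientGroup.mk_mul]
    apply hcc
    show α ((a : A) * (b : A)) v = _
    rw [← hαm, h2, hc, h1, hσm, mul_comm]
  obtain ⟨d, hd⟩ := key_h1 β' hcop' c hcoc
  obtain ⟨e1, rfl⟩ := QuotientGroup.mk_surjective d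
  have hv1 : ∀ a ∈ A0, α a (σ e1 v) = σ e1 v := by
    intro a ha
    obtain ⟨e, he⟩ := (hA0 a).1 ha
    have h1 := hd ⟨a, ha⟩
    rw [hcc ⟨a, ha⟩ e he, hβ', eq_mul_inv_iff_mul_eq, ← QuotientGroup.mk_mul, QuotientGroup.eq,
      hR0] at h1
    rw [hc, he, hσm]
    have h2 : σ (e * β a e1) (σ ((e * β a e1)⁻¹ * e1) v) = σ (e * β a e1) v := by
      rw [h1]
    rw [hσm, mul_inv_cancel_left] at h2
    rw [mul_comm, ← h2]
  -- the character of the quotient
  let l' : E ⧸ R0 →* Kˣ := QuotientGroup.lift R0 l hlR0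
  have hl' : ∀ e : E, l' (e : E ⧸ R0) = l e := fun e => rfl
  have hKQ : ((Nat.card (E ⧸ R0) : ℕ) : K) ≠ 0 := by
    apply key_cast_ne p
    intro h
    exact hpE (h.trans (Subgroup.card_quotient_dvd_card R0))
  obtain ⟨q, hq⟩ := stab_dual hKQ β' hcop' l'
  obtain ⟨e3, rfl⟩ := QuotientGroup.mk_surjective q
  have hq' : ∀ a : A0, (β' a (e3 : E ⧸ R0) = e3 ↔ ∀ x : E, l (β a x) = l x) := by
    intro a
    rw [hq a]
    constructor
    · intro h x
      exact h (x : E ⧸ R0)
    · intro h x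
      induction x using QuotientGroup.induction_on with
      | H e => exact h e
  have hve : σ (e3 * e1) v = σ e3 (σ e1 v) := (hσm _ _ _).symm
  -- if a fixes σ (e3 * e1) v then a is in A0
  have hinA0 : ∀ a, α a (σ (e3 * e1) v) = σ (e3 * e1) v → a ∈ A0 := by
    intro a ha
    rw [hA0]
    refine ⟨(β a (e3 * e1))⁻¹ * (e3 * e1), ?_⟩
    rw [hc] at ha
    rw [← hσm, ← ha, hσm]
    simp
  refine ⟨e3 * e1, ?_, ?_⟩
  · intro a ha
    have haA := hinA0 a ha
    apply (hq' ⟨a, haA⟩).1
    rw [hβ', QuotientGroup.eq, hR0]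
    rw [hve, hc, hv1 a haA] at ha
    have h1 : σ (β a e3)⁻¹ (σ (β a e3) (σ e1 v)) = σ (β a e3)⁻¹ (σ e3 (σ e1 v)) := by rw [ha]
    rw [hσm, inv_mul_cancel, map_one, MulAut.one_apply, hσm, hσm] at h1
    have h2 : σ e1 v = σ e1 (σ ((β a e3)⁻¹ * e3) v) := by
      rw [hσm, mul_comm, ← h1]
    exact ((σ e1).injective h2).symm
  · by_contra hcon
    push Not at hcon
    set e := e3 * e1 with he
    -- the stabilizer of l
    let B : Subgroup A := dual_stabW β l
    have hB : ∀ a, a ∈ B ↔ ∀ x, l (β a x) = l x := fun a => Iff.rfl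
    have hzero : ∀ u : V, ∑ a : A, Φ (α a u) = 0 := by
      intro u
      rw [← key_F_prod hΦmul, hα _ (key_prod_fixed α u), key_F_one hΦmul]
    have h1 : ∀ e' : E, ∑ a : A, ((l (β a e') : Kˣ) : K) * Φ (α a (σ e v)) = 0 := by
      intro e'
      rw [← hzero (σ e' (σ e v))]
      refine sum_congr rfl fun a _ => ?_
      rw [hc a e' (σ e v), hΦσ (β a e')]
    have h2 : ∑ e' : E, (((l e')⁻¹ : Kˣ) : K) *
        ∑ a : A, ((l (β a e') : Kˣ) : K) * Φ (α a (σ e v)) = 0 := by
      apply sum_eq_zero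
      intro e' _
      rw [h1, mul_zero]
    have h3 : ∑ e' : E, (((l e')⁻¹ : Kˣ) : K) *
        ∑ a : A, ((l (β a e') : Kˣ) : K) * Φ (α a (σ e v)) =
        ∑ a : A, (if a ∈ B then (Nat.card E : K) * Φ (σ e v) else 0) := by
      simp only [mul_sum]
      rw [sum_comm]
      refine sum_congr rfl fun a _ => ?_
      have h4 : ∑ e' : E, (((l e')⁻¹ : Kˣ) : K) *
          (((l (β a e') : Kˣ) : K) * Φ (α a (σ e v))) =
          (∑ e' : E, (((l.comp (β a).toMonoidHom * l⁻¹) e' : Kˣ) : K)) * Φ (α a (σ e v)) := by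
        rw [sum_mul]
        refine sum_congr rfl fun e' _ => ?_
        rw [← mul_assoc, ← Units.val_mul]
        congr 2
        rw [mul_comm]
        rfl
      rw [h4]
      by_cases ha : a ∈ B
      · rw [if_pos ha]
        have h5 : (l.comp (β a).toMonoidHom * l⁻¹) = 1 := by
          apply MonoidHom.ext
          intro x
          show l (β a x) * (l x)⁻¹ = 1
          rw [(hB a).1 ha x, mul_inv_cancel]
        rw [h5, hcon a ((hB a).1 ha)]
        simp [Nat.card_eq_fintype_card]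
      · rw [if_neg ha]
        rw [key_sum_zero, zero_mul]
        intro h5
        apply ha
        rw [hB]
        intro x
        have h6 : l (β a x) * (l x)⁻¹ = 1 := DFunLike.congr_fun h5 x
        exact mul_inv_eq_one.1 h6
    rw [h3, ← sum_filter, sum_const, nsmul_eq_mul] at h2
    have h7 : ((univ.filter (fun a : A => a ∈ B)).card : K) ≠ 0 := by
      have h8 : (univ.filter (fun a : A => a ∈ B)).card = Nat.card B := by
        rw [Nat.card_eq_fintype_card, Fintype.card_subtype]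
      rw [h8]
      apply key_cast_ne p
      intro h
      exact hpA (h.trans (Subgroup.card_subgroup_dvd_card B))
    have h9 : Φ (σ e v) ≠ 0 := by
      rw [hΦσ]
      exact mul_ne_zero (Units.ne_zero _) hl
    exact mul_ne_zero h7 (mul_ne_zero hKE h9) h2

end Pool.Agent.FH
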