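import Pool.Agent.FH.Defs

set_option autoImplicit false

namespace Pool.Agent.FH

open scoped commutatorElement

theorem iter_succ {G : Type*} [Group G] (H : Subgroup G) (c : ℕ) :
    iter H (c + 1) = ⁅iter H c, H⁆ := by
  unfold iter
  rw [Function.iterate_succ_apply']

theorem RES_iter_zero {G : Type*} [Group G] (H : Subgroup G) : iter H 0 = H := rfl

theorem RES_iter_anti {G : Type*} [Group G] (H : Subgroup G) : Antitone (iter H) := by
  apply antitone_nat_of_succ_le
  intro n
  induction n with
  | zero =>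
    rw [iter_succ, RES_iter_zero]
    exact Subgroup.commutator_le_self H
  | succ n ih =>
    rw [iter_succ H (n + 1)]
    calc ⁅iter H (n + 1), H⁆ ≤ ⁅iter H n, H⁆ := Subgroup.commutator_mono ih le_rfl
      _ = iter H (n + 1) := (iter_succ H n).symm

theorem ires_le {G : Type*} [Group G] (H : Subgroup G) : ires H ≤ H :=
  (iInf_le _ 0).trans le_rfl

theorem ires_eq_iter {G : Type*} [Group G] [Finite G] (H : Subgroup G) :
    ∃ c0, ∀ c, c0 ≤ c → iter H c = ires H := by
  have h1 : (Set.range (iter H)).Nonempty := Set.range_nonempty _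
  obtain ⟨m, hm⟩ := (Set.toFinite (Set.range (iter H))).exists_minimal h1
  obtain ⟨⟨c0, hc0⟩, hmin⟩ := hm
  have h2 : ∀ c, c0 ≤ c → iter H c = m := by
    intro c hc
    have h3 : iter H c ≤ m := by
      rw [← hc0]
      exact RES_iter_anti H hc
    exact le_antisymm h3 (hmin ⟨c, rfl⟩ h3)
  have h3 : ires H = m := by
    apply le_antisymm
    · rw [← hc0]
      exact iInf_le _ c0
    · apply le_iInf
      intro c
      rw [← h2 (max c0 c) (le_max_left _ _)]
      exact RES_iter_anti H (le_max_right _ _)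
  exact ⟨c0, fun c hc => by rw [h2 c hc, h3]⟩

theorem ires_comm {G : Type*} [Group G] [Finite G] (H : Subgroup G) :
    ⁅ires H, H⁆ = ires H := by
  obtain ⟨c0, hc0⟩ := ires_eq_iter H
  have h1 := iter_succ H c0
  rw [hc0 c0 le_rfl, hc0 (c0 + 1) (Nat.le_succ _)] at h1
  exact h1.symm

theorem R_antitone (G : Type*) [Group G] : Antitone (R G) := by
  apply antitone_nat_of_succ_le
  intro n
  exact ires_le _

theorem RES_iter_map_equiv {G : Type*} [Group G] (e : MulAut G) (H : Subgroup G)
    (hH : ∀ x ∈ H, e x ∈ H) (c : ℕ) : ∀ x ∈ iter H c, e x ∈ iter H c := by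
  induction c with
  | zero => exact hH
  | succ c ih =>
    rw [iter_succ]
    have h1 : ⁅iter H c, H⁆ ≤ (⁅iter H c, H⁆).comap e.toMonoidHom := by
      rw [Subgroup.commutator_le]
      intro x hx y hy
      rw [Subgroup.mem_comap]
      have h2 : e.toMonoidHom ⁅x, y⁆ = ⁅e x, e y⁆ := by
        simp [commutatorElement_def]
      rw [h2]
      exact Subgroup.commutator_mem_commutator (ih x hx) (hH y hy)
    exact fun x hx => h1 hx

theorem RES_R_aut {G : Type*} [Group G] (e : MulAut G) (t : ℕ) : ∀ x ∈ R G t, e x ∈ R G t := by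
  induction t with
  | zero => intro x _; exact Subgroup.mem_top _
  | succ t ih =>
    intro x hx
    have h1 : x ∈ ⨅ c, iter (R G t) c := hx
    have h2 : e x ∈ ⨅ c, iter (R G t) c := by
      rw [Subgroup.mem_iInf] at h1 ⊢
      exact fun c => RES_iter_map_equiv e _ ih c x (h1 c)
    exact h2

theorem R_normal (G : Type*) [Group G] (t : ℕ) : (R G t).Normal := by
  constructor
  intro x hx g
  exact RES_R_aut (MulAut.conj g) t x hx

theorem R_inv {A G : Type*} [Group A] [Group G] (φ : A →* MulAut G) (t : ℕ) :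
    Inv φ (R G t) := fun a x hx => RES_R_aut (φ a) t x hx

theorem RES_iter_map {G G' : Type*} [Group G] [Group G'] (f : G →* G') (H : Subgroup G)
    (c : ℕ) : (iter H c).map f = iter (H.map f) c := by
  induction c with
  | zero => rfl
  | succ c ih => rw [iter_succ, iter_succ, Subgroup.map_commutator, ih]

theorem R_map {G G' : Type*} [Group G] [Group G'] [Finite G] (f : G →* G')
    (hf : Function.Surjective f) (t : ℕ) : (R G t).map f = R G' t := by
  have hfin : Finite G' := Finite.of_surjective f hf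
  induction t with
  | zero =>
    change (⊤ : Subgroup G).map f = ⊤
    exact Subgroup.map_top_of_surjective f hf
  | succ t ih =>
    change (ires (R G t)).map f = ires (R G' t)
    obtain ⟨c0, hc0⟩ := ires_eq_iter (R G t)
    obtain ⟨c1, hc1⟩ := ires_eq_iter (R G' t)
    rw [← hc0 (max c0 c1) (le_max_left _ _), ← hc1 (max c0 c1) (le_max_right _ _),
      RES_iter_map, ih]

theorem R_bot {G : Type*} [Group G] [Finite G] (hsol : Group.IsSolvable G) :
    ∃ t, R G t = ⊥ := by
  obtain ⟨k, hk⟩ := (Group.isSolvable_def G).1 hsol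
  refine ⟨k, ?_⟩
  have h1 : ∀ t, R G t ≤ derivedSeries G t := by
    intro t
    induction t with
    | zero => simp
    | succ t ih =>
      rw [derivedSeries_succ]
      have h2 : R G (t + 1) ≤ ⁅R G t, R G t⁆ := by
        have h3 : ires (R G t) ≤ iter (R G t) 1 := iInf_le _ 1
        exact h3
      exact h2.trans (Subgroup.commutator_mono ih ih)
  rw [eq_bot_iff, ← hk]
  exact h1 k

theorem R_series {G : Type*} [Group G] [Finite G] (n : ℕ) (h : R G n = ⊥) :
    ∃ H : Fin (n + 1) → Subgroup G,
      H 0 = ⊥ ∧ H (Fin.last n) = ⊤ ∧ (∀ i : Fin (n + 1), (H i).Normal) ∧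
      ∀ i : Fin n, H (Fin.castSucc i) ≤ H (Fin.succ i) ∧
        ∃ c : ℕ, (fun L : Subgroup G => ⁅L, H (Fin.succ i)⁆)^[c] (H (Fin.succ i))
          ≤ H (Fin.castSucc i) := by
  refine ⟨fun i => R G (n - i), ?_, ?_, ?_, ?_⟩
  · simpa using h
  · simp only [Fin.val_last, Nat.sub_self]
    rfl
  · intro i
    exact R_normal G _
  · intro i
    have h1 : n - (Fin.castSucc i : ℕ) = (n - (Fin.succ i : ℕ)) + 1 := by
      have := i.2
      simp only [Fin.val_castSucc, Fin.val_succ]
      omega
    have h2 : (R G (n - (Fin.castSucc i : ℕ))) = ires (R G (n - (Fin.succ i : ℕ))) := by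
      rw [h1]
      rfl
    refine ⟨?_, ?_⟩
    · change R G (n - (Fin.castSucc i : ℕ)) ≤ R G (n - (Fin.succ i : ℕ))
      rw [h2]
      exact ires_le _
    · obtain ⟨c0, hc0⟩ := ires_eq_iter (R G (n - (Fin.succ i : ℕ)))
      refine ⟨c0, ?_⟩
      have h3 := hc0 c0 le_rfl
      change iter (R G (n - (Fin.succ i : ℕ))) c0 ≤ R G (n - (Fin.castSucc i : ℕ))
      rw [h3, h2]

end Pool.Agent.FH
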