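import Pool.Agent.FH.RES
import Pool.Agent.FH.COH
import Pool.Agent.FH.ABS
import Pool.Agent.FH.EXE
import Pool.Agent.FH.KEY

set_option autoImplicit false

namespace Pool.Agent.FH

open scoped commutatorElement IsMulCommutative

/-- Restriction of an action to an invariant subgroup. -/
def restrictAct {B Γ : Type*} [Group B] [Group Γ] (φ : B →* MulAut Γ) (E : Subgroup Γ)
    (hE : Inv φ E) : B →* MulAut E where
  toFun b :=
    { toFun := fun x => ⟨φ b x, hE b x x.2⟩
      invFun := fun x => ⟨φ b⁻¹ x, hE b⁻¹ x x.2⟩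
      left_inv := by
        intro x
        apply Subtype.ext
        simp
      right_inv := by
        intro x
        apply Subtype.ext
        simp
      map_mul' := by
        intro x y
        apply Subtype.ext
        simp }
  map_one' := by
    ext x
    simp
  map_mul' := by
    intro a b
    ext x
    simp

theorem restrictAct_coe {B Γ : Type*} [Group B] [Group Γ] (φ : B →* MulAut Γ) (E : Subgroup Γ)
    (hE : Inv φ E) (b : B) (x : E) : ((restrictAct φ E hE b x : E) : Γ) = φ b x := rfl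

/-- The dual action. -/
def dualAct {B E M : Type*} [Group B] [Group E] [CommGroup M] (β : B →* MulAut E) :
    B →* MulAut (E →* M) where
  toFun b :=
    { toFun := fun l => l.comp (β b⁻¹).toMonoidHom
      invFun := fun l => l.comp (β b).toMonoidHom
      left_inv := by
        intro l
        ext x
        simp
      right_inv := by
        intro l
        ext x
        simp
      map_mul' := by
        intro l l'
        ext x
        simp }
  map_one' := by
    ext l x
    simp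
  map_mul' := by
    intro a b
    ext l x
    simp

theorem dualAct_apply {B E M : Type*} [Group B] [Group E] [CommGroup M] (β : B →* MulAut E)
    (b : B) (l : E →* M) (x : E) : dualAct β b l x = l (β b⁻¹ x) := rfl

theorem step_dual_fpf {A E M : Type*} [Group A] [Finite A] [CommGroup E] [CommGroup M]
    (β : A →* MulAut E) (r : ℕ) (hr : r.Prime) (hE : ∀ x : E, x ^ r = 1)
    (hrA : ¬ r ∣ Nat.card A) (h : FPF β) : FPF (dualAct β : A →* MulAut (E →* M)) := by
  classical
  have := Fintype.ofFinite A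
  intro l hl
  have hl' : ∀ a x, l (β a x) = l x := by
    intro a x
    have h1 := hl a⁻¹
    have h2 := DFunLike.congr_fun h1 x
    rw [dualAct_apply, inv_inv] at h2
    exact h2
  apply MonoidHom.ext
  intro x
  have hN : (∏ a : A, β a x) = 1 := by
    apply h
    intro b
    rw [map_prod]
    exact Fintype.prod_equiv (Equiv.mulLeft b) _ _ (fun a => by simp)
  have h3 : (l x) ^ Nat.card A = 1 := by
    have h4 := congrArg l hN
    rw [map_prod, map_one] at h4
    simp only [hl'] at h4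
    rw [Finset.prod_const, Finset.card_univ, ← Nat.card_eq_fintype_card] at h4
    exact h4
  have h5 : (l x) ^ r = 1 := by
    rw [← map_pow, hE, map_one]
  have h6 : orderOf (l x) ∣ Nat.card A := orderOf_dvd_of_pow_eq_one h3
  have h7 : orderOf (l x) ∣ r := orderOf_dvd_of_pow_eq_one h5
  rcases (Nat.dvd_prime hr).1 h7 with h8 | h8
  · exact orderOf_eq_one_iff.1 h8
  · exact absurd (h8 ▸ h6) hrA

/-- If the kernel of the action on `V` is divided out. -/
theorem step_ker_inv {A G V : Type*} [Group A] [Group G] [Group V] (φ : A →* MulAut G)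
    (α : A →* MulAut V) (ρ : G →* MulAut V)
    (hc : ∀ a g v, α a (ρ g v) = ρ (φ a g) (α a v)) : Inv φ ρ.ker := by
  intro a x hx
  rw [MonoidHom.mem_ker] at hx ⊢
  ext v
  have h1 := hc a x ((α a)⁻¹ v)
  rw [hx] at h1
  simp only [MulAut.one_apply, MulAut.apply_inv_self] at h1
  rw [← h1]
  simp

/-- Conjugation action of `G` on a normal subgroup of a quotient. -/
def conjAct {G Γ : Type*} [Group G] [Group Γ] (π : G →* Γ) (E : Subgroup Γ)
    (hE : Inv (MulAut.conj.comp π) E) : G →* MulAut E :=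
  restrictAct (MulAut.conj.comp π) E hE

theorem conjAct_coe {G Γ : Type*} [Group G] [Group Γ] (π : G →* Γ) (E : Subgroup Γ)
    (hE : Inv (MulAut.conj.comp π) E) (g : G) (x : E) :
    ((conjAct π E hE g x : E) : Γ) = π g * x * (π g)⁻¹ := rfl

theorem step_inv_conj {G Γ : Type*} [Group G] [Group Γ] (π : G →* Γ) (E : Subgroup Γ)
    (hn : E.Normal) : Inv (MulAut.conj.comp π) E := by
  intro g x hx
  exact hn.conj_mem x hx (π g)

theorem step_compat {A G Γ M : Type*} [Group A] [Group G] [Group Γ] [CommGroup M]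
    (φ : A →* MulAut G) (φΓ : A →* MulAut Γ) (π : G →* Γ)
    (hπ : ∀ a g, φΓ a (π g) = π (φ a g)) (E : Subgroup Γ) (hE : Inv φΓ E)
    (hE' : Inv (MulAut.conj.comp π) E) (a : A) (g : G) (l : E →* M) :
    dualAct (restrictAct φΓ E hE) a (dualAct (conjAct π E hE') g l)
      = dualAct (conjAct π E hE') (φ a g) (dualAct (restrictAct φΓ E hE) a l) := by
  ext x
  rw [dualAct_apply, dualAct_apply, dualAct_apply, dualAct_apply]
  congr 1
  apply Subtype.ext
  rw [conjAct_coe, restrictAct_coe, restrictAct_coe, conjAct_coe]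
  have h1 : φΓ a⁻¹ (π (φ a g)) = π g := by
    rw [hπ]
    simp
  simp only [map_inv, map_mul, inv_inv] at *
  rw [h1]

theorem step_prim {A G Γ M : Type*} [Group A] [Group G] [Group Γ] [CommGroup M]
    (φ : A →* MulAut G) (φΓ : A →* MulAut Γ) (π : G →* Γ) (hs : Function.Surjective π)
    (hπ : ∀ a g, φΓ a (π g) = π (φ a g)) (E : Subgroup Γ) (hn : E.Normal) (hE : Inv φΓ E)
    (hE' : Inv (MulAut.conj.comp π) E)
    (hmin : ∀ E' : Subgroup Γ, E'.Normal → Inv φΓ E' → E' ≤ E → E' = ⊥ ∨ E' = E) :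
    Prim φ (dualAct (conjAct π E hE') : G →* MulAut (E →* M)) := by
  intro X hX hXi
  have hXn : (X.map π).Normal := hX.map π hs
  have hcn : (⁅E, X.map π⁆).Normal := Subgroup.commutator_normal _ _
  have hci : Inv φΓ ⁅E, X.map π⁆ := by
    intro a y hy
    have h1 : ⁅E, X.map π⁆ ≤ (⁅E, X.map π⁆).comap (φΓ a).toMonoidHom := by
      rw [Subgroup.commutator_le]
      intro e he x hx
      rw [Subgroup.mem_comap]
      have h2 : (φΓ a).toMonoidHom ⁅e, x⁆ = ⁅φΓ a e, φΓ a x⁆ := by
        simp [commutatorElement_def]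
      rw [h2]
      apply Subgroup.commutator_mem_commutator (hE a e he)
      obtain ⟨g, hg, rfl⟩ := hx
      rw [hπ]
      exact ⟨φ a g, hXi a g hg, rfl⟩
    exact h1 hy
  have hcl : ⁅E, X.map π⁆ ≤ E := Subgroup.commutator_le_left _ _
  rcases hmin _ hcn hci hcl with h0 | h0
  · left
    intro x hx l
    ext y
    rw [dualAct_apply]
    congr 2
    apply Subtype.ext
    rw [conjAct_coe]
    have h1 : ⁅(y : Γ), π x⁆ ∈ ⁅E, X.map π⁆ :=
      Subgroup.commutator_mem_commutator y.2 ⟨x, hx, rfl⟩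
    rw [h0, Subgroup.mem_bot, commutatorElement_eq_one_iff_mul_comm] at h1
    rw [map_inv, inv_inv, mul_assoc, h1]
    simp
  · right
    intro l hl
    have h1 : ∀ y : E, l y = 1 := by
      have h2 : ⁅E, X.map π⁆ ≤ (l.ker).map E.subtype := by
        rw [Subgroup.commutator_le]
        rintro e he _ ⟨x, hx, rfl⟩
        have h3 : e * (π x * e⁻¹ * (π x)⁻¹) ∈ E :=
          E.mul_mem he (hn.conj_mem _ (E.inv_mem he) _)
        refine ⟨⟨e * (π x * e⁻¹ * (π x)⁻¹), h3⟩, ?_, ?_⟩
        · have h4 : (⟨e * (π x * e⁻¹ * (π x)⁻¹), h3⟩ : E)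
              = ⟨e, he⟩ * conjAct π E hE' x (⟨e, he⟩)⁻¹ := by
            apply Subtype.ext
            rfl
          rw [SetLike.mem_coe, MonoidHom.mem_ker, h4, map_mul]
          have h5 := hl x⁻¹ (X.inv_mem hx)
          have h6 := DFunLike.congr_fun h5 (⟨e, he⟩⁻¹ : E)
          rw [dualAct_apply, inv_inv] at h6
          rw [h6, map_inv]
          simp
        · simp [commutatorElement_def, mul_assoc]
      intro y
      have h3 : (y : Γ) ∈ ⁅E, X.map π⁆ := by
        rw [h0]
        exact y.2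
      obtain ⟨z, hz, hzy⟩ := h2 h3
      have h4 : z = y := Subtype.ext hzy
      rw [← h4]
      exact hz
    exact MonoidHom.ext h1

/-- An elementary abelian `p`-group cannot act on a nontrivial `p`-group without fixed points. -/
theorem step_fixed {E V : Type*} [Group E] [Finite E] [Group V] [Finite V] (p : ℕ)
    (hp : p.Prime) (hE : ∀ x : E, x ^ p = 1) (hV : ∀ v : V, v ^ p = 1) (σ : E →* MulAut V)
    (v : V) (hv : v ≠ 1) : ∃ w : V, w ≠ 1 ∧ ∀ e, σ e w = w := by
  have := Fact.mk hp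
  have hEp : IsPGroup p E := fun x => ⟨1, by rw [pow_one]; exact hE x⟩
  let _ : MulAction E V :=
    { smul := fun e w => σ e w
      one_smul := by
        intro w
        change σ 1 w = w
        simp
      mul_smul := by
        intro a b w
        change σ (a * b) w = σ a (σ b w)
        simp }
  have hsm : ∀ (e : E) (w : V), e • w = σ e w := fun _ _ => rfl
  have hcard : p ∣ Nat.card V := by
    have h1 : orderOf v = p := orderOf_eq_prime (hV v) hv
    rw [← h1]
    exact orderOf_dvd_natCard v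
  have h1 : (1 : V) ∈ MulAction.fixedPoints E V := by
    intro e
    rw [hsm]
    simp
  obtain ⟨w, hw, hw1⟩ := hEp.exists_fixed_point_of_prime_dvd_card_of_fixed_point V hcard h1
  exact ⟨w, fun h => hw1 h.symm, fun e => hw e⟩

theorem step_succ {A : Type} [Group A] [Finite A] (f : Subgroup A → ℕ) (hf : StrictMono f)
    {G : Type} [Group G] [Finite G] (φ : A →* MulAut G) (hsol : Group.IsSolvable G)
    (hcop : Nat.Coprime (Nat.card G) (Nat.card A)) (hfix : FPF φ) (hab : AbS G) (k : ℕ)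
    (ih : ∀ (V : Type) [CommGroup V] [Finite V] (p : ℕ), p.Prime → (∀ v : V, v ^ p = 1) →
      ¬ p ∣ Nat.card A → ∀ (α : A →* MulAut V) (ρ : G →* MulAut V),
      (∀ a g v, α a (ρ g v) = ρ (φ a g) (α a v)) → FPF α → Prim φ ρ →
      (∀ j, j + 1 = k → ∃ n ∈ R G j, ∃ v, ρ n v ≠ v) →
      ∀ v : V, v ≠ 1 → ∃ g : G, f (stab α (ρ g v)) + k + 1 ≤ f ⊤)
    (V : Type) [CommGroup V] [Finite V] (p : ℕ) (hp : p.Prime) (hV : ∀ v : V, v ^ p = 1)
    (hpA : ¬ p ∣ Nat.card A) (α : A →* MulAut V) (ρ : G →* MulAut V)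
    (hc : ∀ a g v, α a (ρ g v) = ρ (φ a g) (α a v)) (hα : FPF α) (hprim : Prim φ ρ)
    (hk : ∃ n ∈ R G k, ∃ v, ρ n v ≠ v) (v : V) (hv : v ≠ 1) :
    ∃ g : G, f (stab α (ρ g v)) + (k + 1) + 1 ≤ f ⊤ := by
  classical
  have hLi : Inv φ ρ.ker := step_ker_inv φ α ρ hc
  obtain ⟨φΓ, hφΓ⟩ := exists_quot_action φ ρ.ker hLi
  let π : G →* G ⧸ ρ.ker := QuotientGroup.mk' ρ.ker
  have hπs : Function.Surjective π := QuotientGroup.mk'_surjective _
  have hπ : ∀ a g, φΓ a (π g) = π (φ a g) := hφΓ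
  have hsolΓ : Group.IsSolvable (G ⧸ ρ.ker) := Group.isSolvable_of_surjective hπs
  have hcopΓ : Nat.Coprime (Nat.card (G ⧸ ρ.ker)) (Nat.card A) :=
    Nat.Coprime.coprime_dvd_left (Subgroup.card_quotient_dvd_card _) hcop
  have hfixΓ : FPF φΓ := fpf_of_surj φ φΓ hsol hcop hfix π hπs (fun a g => (hπ a g).symm)
  have habΓ : AbS (G ⧸ ρ.ker) := abs_surj hab π hπs
  have hRk : R (G ⧸ ρ.ker) k ≠ ⊥ := by
    obtain ⟨n, hn, w, hw⟩ := hk
    intro h0
    rw [← R_map π hπs k] at h0
    have h1 : π n ∈ (R G k).map π := ⟨n, hn, rfl⟩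
    rw [h0, Subgroup.mem_bot] at h1
    have h2 : n ∈ ρ.ker := (QuotientGroup.eq_one_iff n).1 h1
    rw [MonoidHom.mem_ker] at h2
    apply hw
    rw [h2]
    rfl
  obtain ⟨r, E, hr, hEn, hEinv, hEne, hEr, hEc, hEmin, hEact⟩ :=
    exists_E φΓ hsolΓ habΓ k hRk
  have hcE : IsMulCommutative E :=
    isMulCommutative_iff.2 (fun x y => Subtype.ext (hEc x x.2 y y.2))
  let ρΓ : (G ⧸ ρ.ker) →* MulAut V := QuotientGroup.kerLift ρ
  have hρΓi : Function.Injective ρΓ := QuotientGroup.kerLift_injective ρ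
  have hρπ : ∀ g, ρΓ (π g) = ρ g := fun g => QuotientGroup.kerLift_mk ρ g
  have hE' : Inv (MulAut.conj.comp π) E := step_inv_conj π E hEn
  let σ : E →* MulAut V := ρΓ.comp E.subtype
  have hσ : ∀ (e : E) (w : V), σ e w = ρΓ e w := fun _ _ => rfl
  -- E acts without fixed points
  have hσfix : ∀ w : V, (∀ e, σ e w = w) → w = 1 := by
    have h1 := hprim (E.comap π) (hEn.comap π) (by
      intro a x hx
      rw [Subgroup.mem_comap] at hx ⊢
      rw [← hπ]
      exact hEinv a _ hx)
    rcases h1 with h1 | h1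
    · exfalso
      apply hEne
      rw [eq_bot_iff]
      intro e he
      obtain ⟨g, rfl⟩ := hπs e
      rw [Subgroup.mem_bot]
      apply hρΓi
      rw [map_one]
      ext w
      rw [hρπ]
      exact h1 g he w
    · intro w hw
      apply h1 w
      intro x hx
      have h2 := hw ⟨π x, hx⟩
      rw [hσ] at h2
      rw [← hρπ]
      exact h2
  have hrp : r ≠ p := by
    rintro rfl
    obtain ⟨w, hw, hw1⟩ := step_fixed r hr (E := E)
      (fun x => Subtype.ext (hEr x x.2)) hV σ v hv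
    exact hw (hσfix w hw1)
  have hpE : ¬ p ∣ Nat.card E := by
    intro h
    have := Fact.mk hp
    obtain ⟨x, hx⟩ := exists_prime_orderOf_dvd_card' p h
    have h1 : x ^ r = 1 := Subtype.ext (hEr x x.2)
    have h2 : p ∣ r := by
      rw [← hx]
      exact orderOf_dvd_of_pow_eq_one h1
    exact hrp ((Nat.prime_dvd_prime_iff_eq hp hr).1 h2).symm
  have hcopE : Nat.Coprime (Nat.card E) (Nat.card A) :=
    Nat.Coprime.coprime_dvd_left (Subgroup.card_subgroup_dvd_card E) hcopΓ
  have hrA : ¬ r ∣ Nat.card A := by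
    intro h
    have := Fact.mk hr
    have hne : ∃ x : E, x ≠ 1 := by
      by_contra hcon
      push_neg at hcon
      apply hEne
      rw [eq_bot_iff]
      intro e he
      rw [Subgroup.mem_bot]
      exact congrArg Subtype.val (hcon ⟨e, he⟩)
    obtain ⟨x, hx⟩ := hne
    have h1 : orderOf x = r := orderOf_eq_prime (Subtype.ext (hEr x x.2)) hx
    have h2 : r ∣ Nat.card E := by
      rw [← h1]
      exact orderOf_dvd_natCard x
    have h3 := Nat.dvd_gcd h2 h
    rw [hcopE] at h3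
    exact hr.one_lt.ne' (Nat.dvd_one.1 h3)
  have hpF := Fact.mk hp
  have hrF := Fact.mk hr
  let _ : Fintype E := Fintype.ofFinite E
  obtain ⟨l, hl1, F, hF, hl⟩ :=
    exists_l (K := AlgebraicClosure (ZMod p)) p hp hV hpE σ hσfix v hv
  have hNe : NeZero ((Nat.card E : ℕ) : AlgebraicClosure (ZMod p)) := by
    refine ⟨fun h0 => hpE ?_⟩
    exact (CharP.cast_eq_zero_iff (AlgebraicClosure (ZMod p)) p _).1 h0
  have hR1 : HasEnoughRootsOfUnity (AlgebraicClosure (ZMod p)) (Nat.card E) := inferInstance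
  have hR2 : HasEnoughRootsOfUnity (AlgebraicClosure (ZMod p)) (Monoid.exponent E) :=
    hR1.of_dvd _ (Group.exponent_dvd_nat_card)
  have hFinW : Finite (E →* (AlgebraicClosure (ZMod p))ˣ) :=
    Finite.of_equiv E
      (CommGroup.monoidHom_mulEquiv_of_hasEnoughRootsOfUnity E
        (AlgebraicClosure (ZMod p))).some.symm.toEquiv
  let β : A →* MulAut E := restrictAct φΓ E hEinv
  let γ : G →* MulAut E := conjAct π E hE'
  have hfixE : FPF β := by
    intro x hx
    apply Subtype.ext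
    apply hfixΓ
    intro a
    have h1 := congrArg Subtype.val (hx a)
    exact h1
  have hWr : ∀ w : E →* (AlgebraicClosure (ZMod p))ˣ, w ^ r = 1 := by
    intro w
    ext x
    rw [MonoidHom.pow_apply, ← map_pow]
    have h1 : x ^ r = 1 := Subtype.ext (hEr x x.2)
    rw [h1]
    simp
  have hkW : ∀ j, j + 1 = k → ∃ n ∈ R G j, ∃ w : E →* (AlgebraicClosure (ZMod p))ˣ,
      dualAct γ n w ≠ w := by
    intro j hj
    obtain ⟨n', hn', x, hx, hne⟩ := hEact j (le_of_eq hj)
    rw [← R_map π hπs j] at hn'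
    obtain ⟨n, hn, rfl⟩ := hn'
    let y : E := γ n⁻¹ ⟨x, hx⟩ * (⟨x, hx⟩)⁻¹
    have hy : y ≠ 1 := by
      intro h0
      apply hne
      have h1 : γ n⁻¹ ⟨x, hx⟩ = ⟨x, hx⟩ := mul_inv_eq_one.1 h0
      have h2 := congrArg Subtype.val h1
      have h3 : π n⁻¹ * x * (π n⁻¹)⁻¹ = x := h2
      rw [map_inv, inv_inv] at h3
      calc π n * x = π n * ((π n)⁻¹ * x * π n) := by rw [h3]
        _ = x * π n := by group
    obtain ⟨w, hw⟩ := CommGroup.exists_apply_ne_one_of_hasEnoughRootsOfUnity E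
      (AlgebraicClosure (ZMod p)) hy
    refine ⟨n, hn, w, ?_⟩
    intro h0
    apply hw
    have h1 := DFunLike.congr_fun h0 (⟨x, hx⟩ : E)
    rw [dualAct_apply] at h1
    change w (γ n⁻¹ ⟨x, hx⟩ * (⟨x, hx⟩)⁻¹) = 1
    rw [map_mul, h1, ← map_mul]
    simp
  obtain ⟨g, hg⟩ := ih (E →* (AlgebraicClosure (ZMod p))ˣ) r hr hWr hrA
    (dualAct β) (dualAct γ)
    (fun a g w => step_compat φ φΓ π hπ E hEinv hE' a g w)
    (step_dual_fpf β r hr (fun x => Subtype.ext (hEr x x.2)) hrA hfixE)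
    (step_prim φ φΓ π hπs hπ E hEn hEinv hE' hEmin) hkW l hl1
  let l' : E →* (AlgebraicClosure (ZMod p))ˣ := dualAct γ g l
  let F' : V → AlgebraicClosure (ZMod p) := fun u => F (ρ g⁻¹ u)
  have hF' : ∀ u w, F' (u * w) = F' u + F' w := by
    intro u w
    change F (ρ g⁻¹ (u * w)) = F (ρ g⁻¹ u) + F (ρ g⁻¹ w)
    rw [map_mul, hF]
  have hl' : ∑ e : E, (((l' e)⁻¹ : (AlgebraicClosure (ZMod p))ˣ) : AlgebraicClosure (ZMod p))
      * F' (σ e (ρ g v)) ≠ 0 := by
    have h1 : ∑ e : E, (((l' e)⁻¹ : (AlgebraicClosure (ZMod p))ˣ) : AlgebraicClosure (ZMod p))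
        * F' (σ e (ρ g v))
        = ∑ e : E, (((l e)⁻¹ : (AlgebraicClosure (ZMod p))ˣ) : AlgebraicClosure (ZMod p))
          * F (σ e v) := by
      symm
      refine Fintype.sum_equiv (γ g).toEquiv _ _ ?_
      intro e
      have h2 : l' ((γ g).toEquiv e) = l e := by
        change dualAct γ g l (γ g e) = l e
        rw [dualAct_apply]
        congr 1
        simp
      have h3 : F' (σ ((γ g).toEquiv e) (ρ g v)) = F (σ e v) := by
        change F (ρ g⁻¹ (ρΓ ((γ g e : E) : G ⧸ ρ.ker) (ρ g v))) = F (ρΓ e v)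
        congr 1
        have h4 : ((γ g e : E) : G ⧸ ρ.ker) = π g * e * (π g)⁻¹ := rfl
        rw [h4, map_mul, map_mul, map_inv, map_inv, hρπ]
        simp
      rw [h2, h3]
    rw [h1]
    exact hl
  have hcσ : ∀ a (e : E) w, α a (σ e w) = σ (β a e) (α a w) := by
    intro a e w
    obtain ⟨y, hy⟩ := hπs (e : G ⧸ ρ.ker)
    have h1 : ((β a e : E) : G ⧸ ρ.ker) = π (φ a y) := by
      have h2 : ((β a e : E) : G ⧸ ρ.ker) = φΓ a e := rfl
      rw [h2, ← hy, hπ]
    rw [hσ, hσ, h1, ← hy, hρπ, hρπ, hc]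
  obtain ⟨e, h1, a0, h2, h3⟩ := key p hp hV hpE hpA hcopE β α σ hcσ hα (ρ g v) l' F' hF' hl'
  obtain ⟨y, hy⟩ := hπs (e : G ⧸ ρ.ker)
  refine ⟨y * g, ?_⟩
  have h4 : ρ (y * g) v = σ e (ρ g v) := by
    rw [map_mul, MulAut.mul_apply, hσ, ← hy, hρπ]
  have h5 : stab α (ρ (y * g) v) < stab (dualAct β) l' := by
    rw [h4]
    have hmem : ∀ a, (∀ x, l' (β a x) = l' x) ↔ a ∈ stab (dualAct β) l' := by
      intro a
      rw [mem_stab]
      constructor
      · intro h
        ext x
        rw [dualAct_apply]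
        have h6 := h (β a⁻¹ x)
        rw [← h6]
        simp
      · intro h x
        have h6 := DFunLike.congr_fun h (β a x)
        rw [dualAct_apply] at h6
        rw [← h6]
        simp
    refine lt_of_le_of_ne ?_ ?_
    · intro a ha
      rw [mem_stab] at ha
      exact (hmem a).1 (h1 a ha)
    · intro h0
      apply h3
      have h6 : a0 ∈ stab (dualAct β) l' := (hmem a0).1 h2
      rw [← h0, mem_stab] at h6
      exact h6
  have h6 := hf h5
  have h7 : f (stab (dualAct β) l') + k + 1 ≤ f ⊤ := hg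
  omega

theorem main_step {A : Type} [Group A] [Finite A] (f : Subgroup A → ℕ) (hf : StrictMono f)
    {G : Type} [Group G] [Finite G] (φ : A →* MulAut G) (hsol : Group.IsSolvable G)
    (hcop : Nat.Coprime (Nat.card G) (Nat.card A)) (hfix : FPF φ) (hab : AbS G) :
    ∀ k : ℕ, ∀ (V : Type) [CommGroup V] [Finite V] (p : ℕ), p.Prime → (∀ v : V, v ^ p = 1) →
      ¬ p ∣ Nat.card A → ∀ (α : A →* MulAut V) (ρ : G →* MulAut V),
      (∀ a g v, α a (ρ g v) = ρ (φ a g) (α a v)) → FPF α → Prim φ ρ →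
      (∀ j, j + 1 = k → ∃ n ∈ R G j, ∃ v, ρ n v ≠ v) →
      ∀ v : V, v ≠ 1 → ∃ g : G, f (stab α (ρ g v)) + k + 1 ≤ f ⊤ := by
  intro k
  induction k with
  | zero =>
    intro V _ _ p _ _ _ α ρ _ hα _ _ v hv
    refine ⟨1, ?_⟩
    have h1 : stab α (ρ 1 v) < ⊤ := by
      rw [lt_top_iff_ne_top]
      intro h0
      apply hv
      apply hα
      intro a
      have h2 : a ∈ stab α (ρ 1 v) := by
        rw [h0]
        exact Subgroup.mem_top a
      rw [mem_stab] at h2
      simpa using h2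
    have h2 := hf h1
    omega
  | succ k ih =>
    intro V _ _ p hp hV hpA α ρ hc hα hprim hk v hv
    exact step_succ f hf φ hsol hcop hfix hab k ih V p hp hV hpA α ρ hc hα hprim
      (hk k rfl) v hv

end Pool.Agent.FH
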